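import Pool.Agent.U602.MS.Top

set_option autoImplicit false
set_option linter.unusedSectionVars false

/-! Abelian groups. -/

namespace Pool.Agent.U602.MS

open Finset
open Pool.Agent.H469R2.NK (e norm_e e_add e_zero conj_e)

variable {ι : Type} [Fintype ι] [DecidableEq ι]

theorem gp_comm (G : ι → Type) [∀ i, CommGroup (G i)] [∀ i, Fintype (G i)]
    (b k : ι → ℕ) (S w : ∀ i, ℕ → G i) (hb : ∀ i, 2 ≤ b i) (hk : ∀ i, 1 ≤ k i)
    (hcop : ∀ i j, i ≠ j → (b i).Coprime (b j))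
    (hS : ∀ i n, S i n = w i (n % b i ^ k i) * S i (n / b i)) : GP G S := by
  classical
  intro Ψ Q hQ ε hε
  let A := ∀ i, G i
  set Ψ' : Additive A → ℂ := fun a => Ψ a.toMul with hΨ'
  set B := AddChar.complexBasis (Additive A) with hB
  have : Fintype (AddChar (Additive A) ℂ) := Fintype.ofFinite _
  have hrep : ∀ a : A, Ψ a = ∑ χ : AddChar (Additive A) ℂ, B.repr Ψ' χ * χ (Additive.ofMul a) := by
    intro a
    have h1 := congrFun (B.sum_repr Ψ') (Additive.ofMul a)
    rw [Finset.sum_apply] at h1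
    rw [show Ψ a = Ψ' (Additive.ofMul a) from rfl, ← h1]
    refine sum_congr rfl fun χ _ => ?_
    rw [Pi.smul_apply, smul_eq_mul, hB, AddChar.coe_complexBasis]
  set K : ℝ := ∑ χ : AddChar (Additive A) ℂ, ‖B.repr Ψ' χ‖ with hK
  have hK0 : 0 ≤ K := sum_nonneg fun _ _ => norm_nonneg _
  have hmul : ∀ (χ : AddChar (Additive A) ℂ) (a a' : A),
      χ (Additive.ofMul (a * a')) = χ (Additive.ofMul a) * χ (Additive.ofMul a') := by
    intro χ a a'
    rw [ofMul_mul, AddChar.map_add_eq_mul]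
  have hBD : ∀ (χ : AddChar (Additive A) ℂ) i, BD (b i) (k i)
      (fun n => χ (Additive.ofMul (Pi.mulSingle i (S i n) : A))) := by
    intro χ i
    refine ⟨hb i, hk i, fun n => ?_, fun m => χ (Additive.ofMul (Pi.mulSingle i (w i m) : A)),
      fun n => ?_⟩
    · exact AddChar.norm_apply χ _
    · simp only
      rw [← hmul, ← Pi.mulSingle_mul, hS i n, mul_comm]
  have hprod : ∀ (χ : AddChar (Additive A) ℂ) (a : A),
      ∏ i, χ (Additive.ofMul (Pi.mulSingle i (a i) : A)) = χ (Additive.ofMul a) := by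
    intro χ a
    let χ' : A →* ℂ := ⟨⟨fun a => χ (Additive.ofMul a), by simp⟩, fun x y => hmul χ x y⟩
    have : ∏ i, χ' (Pi.mulSingle i (a i) : A) = χ' a := by
      rw [← map_prod, Finset.univ_prod_mulSingle]
    exact this
  choose N₀ hN₀ using fun χ : AddChar (Additive A) ℂ => core b k
    (fun i n => χ (Additive.ofMul (Pi.mulSingle i (S i n) : A))) (hBD χ) hcop Q hQ
    (ε / (K + 1)) (by positivity)
  refine ⟨∑ χ, N₀ χ, fun N hN c θ P hP hP1 => ?_⟩
  have h1 : ∑ n ∈ Ioc 0 N, mob n * Ψ (fun i => S i (n + c i)) * P n * e (n * θ) =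
      ∑ χ : AddChar (Additive A) ℂ, B.repr Ψ' χ * ∑ n ∈ Ioc 0 N, mob n *
        (∏ i, χ (Additive.ofMul (Pi.mulSingle i (S i (n + c i)) : A))) * P n * e (n * θ) := by
    simp_rw [mul_sum]
    rw [sum_comm]
    refine sum_congr rfl fun n _ => ?_
    rw [hrep, mul_sum, sum_mul, sum_mul]
    refine sum_congr rfl fun χ _ => ?_
    rw [hprod χ (fun i => S i (n + c i))]
    ring
  rw [h1]
  refine (norm_sum_le _ _).trans ?_
  have h2 : ∀ χ ∈ (univ : Finset (AddChar (Additive A) ℂ)), ‖B.repr Ψ' χ * ∑ n ∈ Ioc 0 N, mob n *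
        (∏ i, χ (Additive.ofMul (Pi.mulSingle i (S i (n + c i)) : A))) * P n * e (n * θ)‖ ≤
      ‖B.repr Ψ' χ‖ * (ε / (K + 1) * N) := by
    intro χ _
    rw [norm_mul]
    refine mul_le_mul_of_nonneg_left ?_ (norm_nonneg _)
    exact hN₀ χ N ((single_le_sum (f := N₀) (fun _ _ => Nat.zero_le _) (mem_univ χ)).trans hN)
      c θ P hP hP1
  refine (sum_le_sum h2).trans ?_
  rw [← sum_mul, ← hK]
  have h3 : K * (ε / (K + 1) * N) = (K / (K + 1)) * (ε * N) := by
    field_simp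
  rw [h3]
  have h4 : K / (K + 1) ≤ 1 := by
    rw [div_le_one (by positivity)]
    linarith
  have h5 : 0 ≤ ε * N := by positivity
  nlinarith

end Pool.Agent.U602.MS
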