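import Pool.Agent.U602.MS.Multi

set_option autoImplicit false
set_option linter.unusedSectionVars false

/-! The bilinear sums of a product are small if one factor is not degenerate. -/

namespace Pool.Agent.U602.MS

open Finset
open Pool.Agent.H469R2.NK (e norm_e e_add e_zero conj_e vdcH)
open Pool.Agent.TH915.PW (e_int sum_char e_sub sum_blocks)
open Pool.Agent.U602.MB (corr sum_perm crt_sum prod_diff_le)

variable {ι : Type} [Fintype ι] [DecidableEq ι]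

theorem bil (b k : ι → ℕ) (f : ι → ℕ → ℂ) (h : ∀ i, BD (b i) (k i) (f i))
    (hcop : ∀ i j, i ≠ j → (b i).Coprime (b j)) (i₀ : ι) (hnd : ¬ Deg (b i₀) (k i₀) (f i₀))
    (p q : ℕ) (hpp : p.Prime) (hqp : q.Prime) (hp3 : 3 ≤ p) (hpq : p ≠ q)
    (hp : ∀ i, ¬ p ∣ b i) (hq : ∀ i, ¬ q ∣ b i) (ε : ℝ) (hε : 0 < ε) :
    ∃ N : ℕ, 1 ≤ N ∧ ∀ (u v : ι → ℕ) (θ : ℝ),
      ‖∑ x ∈ range N, (∏ i, cc (f i) p q (u i) (v i) x) * e (x * θ)‖ ≤ ε * N := by
  have hb : ∀ i, 2 ≤ b i := fun i => (h i).two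
  have hk : ∀ i, 1 ≤ k i := fun i => (h i).one
  have hf1 : ∀ i n, ‖f i n‖ = 1 := fun i => (h i).norm
  choose w hw using fun i => (h i).dig
  have hcp : ∀ i, p.Coprime (b i) := fun i => (Nat.Prime.coprime_iff_not_dvd hpp).2 (hp i)
  have hcq : ∀ i, q.Coprime (b i) := fun i => (Nat.Prime.coprime_iff_not_dvd hqp).2 (hq i)
  have hpnq : ¬ p ∣ q := by
    intro hd
    exact hpq ((Nat.prime_dvd_prime_iff_eq hpp hqp).1 hd)
  -- the short sums
  obtain ⟨t₀, ht₀⟩ := exists_nat_ge (16 / ε ^ 2)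
  obtain ⟨m, hmt, hm⟩ := single (b i₀) (k i₀) p q (f i₀) (h i₀) hpp hp3 (hp i₀) hqp.pos hpnq hnd
    (ε ^ 2 / 64) (by positivity) t₀
  set B : ℕ := b i₀ ^ m with hB
  have hBpos : 0 < B := by have := hb i₀; positivity
  have hBR : (0 : ℝ) < B := by exact_mod_cast hBpos
  have hBt : 16 / ε ^ 2 ≤ (B : ℝ) := by
    have h1 : t₀ ≤ B := hmt.trans (Nat.lt_pow_self (by have := hb i₀; omega)).le
    exact ht₀.trans (by exact_mod_cast h1)
  -- the moduli
  set s : ℝ := (Fintype.card ι : ℝ) with hs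
  have hs1 : 1 ≤ s := by
    have h1 : 1 ≤ Fintype.card ι := Fintype.card_pos_iff.2 ⟨i₀⟩
    rw [hs]
    exact_mod_cast h1
  obtain ⟨M, hM⟩ := exists_nat_ge (((p : ℝ) + q) * B ^ 2 * s * 64 / ε ^ 2 + 64 * B ^ 2 / ε ^ 2 + m)
  have hpos1 : 0 ≤ ((p : ℝ) + q) * B ^ 2 * s * 64 / ε ^ 2 := by positivity
  have hpos2 : 0 ≤ 64 * (B : ℝ) ^ 2 / ε ^ 2 := by positivity
  have hMm : m ≤ M := by
    have : (m : ℝ) ≤ M := by linarith
    exact_mod_cast this
  have hbM : ∀ i, (M : ℝ) ≤ ((b i ^ M : ℕ) : ℝ) := by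
    intro i
    have : M ≤ b i ^ M := (Nat.lt_pow_self (by have := hb i; omega)).le
    exact_mod_cast this
  set N : ℕ := ∏ i, b i ^ (M + (k i - 1)) with hN
  have hNpos : 0 < N := prod_pos fun i _ => by have := hb i; positivity
  have hNR : (0 : ℝ) < N := by exact_mod_cast hNpos
  have hMN : (M : ℝ) ≤ N := by
    have h1 : b i₀ ^ M ≤ N := by
      have h2 : b i₀ ^ (M + (k i₀ - 1)) ∣ N := dvd_prod_of_mem (fun i => b i ^ (M + (k i - 1)))
        (mem_univ i₀)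
      refine le_trans ?_ (Nat.le_of_dvd hNpos h2)
      exact Nat.pow_le_pow_right (by have := hb i₀; omega) (by omega)
    refine (hbM i₀).trans ?_
    exact_mod_cast h1
  refine ⟨N, hNpos, fun u v θ => ?_⟩
  set c : ι → ℕ → ℂ := fun i x => cc (f i) p q (u i) (v i) x with hc
  have hc1 : ∀ i x, ‖c i x‖ = 1 := fun i x => norm_cc (hf1 i) _ _ _ _ _
  set z : ℕ → ℂ := fun x => (∏ i, c i x) * e (x * θ) with hz
  have hz1 : ∀ n, ‖z n‖ = 1 := by
    intro n
    rw [hz]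
    simp only
    rw [norm_mul, norm_e, mul_one, norm_prod]
    exact prod_eq_one fun i _ => hc1 i n
  have hvdc := vdcH z (fun n => (hz1 n).le) N B
  set P' : ℕ := ∏ i ∈ univ.erase i₀, b i ^ (M + (k i - 1)) with hP'
  have hNN : N = b i₀ ^ (M + (k i₀ - 1)) * P' :=
    (mul_prod_erase univ (fun i => b i ^ (M + (k i - 1))) (mem_univ i₀)).symm
  set Cl : ℕ → ℝ := fun l => ‖∑ x ∈ range (b i₀ ^ (M + (k i₀ - 1))), c i₀ (x + l) *
    (starRingEnd ℂ) (c i₀ x)‖ with hCl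
  -- the sum of reciprocals
  have hrec : ((p : ℝ) + q) * B ^ 2 * ∑ i, 1 / ((b i ^ M : ℕ) : ℝ) ≤ ε ^ 2 / 64 := by
    have hM0 : 0 < ((p : ℝ) + q) * B ^ 2 * s * 64 / ε ^ 2 := by
      have : (0 : ℝ) < p := by exact_mod_cast hpp.pos
      positivity
    have hM1 : ((p : ℝ) + q) * B ^ 2 * s * 64 / ε ^ 2 ≤ M := by
      have : (0 : ℝ) ≤ m := Nat.cast_nonneg _
      linarith
    have hMpos : (0 : ℝ) < M := lt_of_lt_of_le hM0 hM1
    have h1 : ∑ i, 1 / ((b i ^ M : ℕ) : ℝ) ≤ s * (1 / M) := by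
      refine (sum_le_card_nsmul univ _ (1 / (M : ℝ)) fun i _ => ?_).trans ?_
      · exact one_div_le_one_div_of_le hMpos (hbM i)
      · rw [card_univ, nsmul_eq_mul]
    have h2 : 0 ≤ ((p : ℝ) + q) * B ^ 2 := by positivity
    refine (mul_le_mul_of_nonneg_left h1 h2).trans ?_
    rw [div_le_iff₀ (by positivity)] at hM1
    rw [show ((p : ℝ) + q) * B ^ 2 * (s * (1 / M)) = ((p : ℝ) + q) * B ^ 2 * s / M by ring,
      div_le_iff₀ hMpos]
    linarith
  have hshift : ∀ l ∈ Ico 1 B, ‖∑ n ∈ range (N - l), z (n + l) * (starRingEnd ℂ) (z n)‖ ≤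
      (P' : ℝ) * Cl l + (4 * (N : ℝ) * ((p + q) * B) * ∑ i, 1 / ((b i ^ M : ℕ) : ℝ) + B) := by
    intro l hl
    rw [mem_Ico] at hl
    have hlR : (l : ℝ) ≤ B := by exact_mod_cast hl.2.le
    have h3 : ∀ n, z (n + l) * (starRingEnd ℂ) (z n) =
        e (l * θ) * ∏ i, (c i (n + l) * (starRingEnd ℂ) (c i n)) := by
      intro n
      rw [hz]
      simp only
      rw [map_mul, map_prod, prod_mul_distrib]
      have h4 : e (((n + l : ℕ) : ℝ) * θ) * (starRingEnd ℂ) (e (n * θ)) = e (l * θ) := by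
        rw [← e_sub]
        congr 1
        push_cast
        ring
      rw [← h4]
      ring
    have h5 : ∑ n ∈ range N, z (n + l) * (starRingEnd ℂ) (z n) =
        e (l * θ) * ∑ n ∈ range N, ∏ i, (c i (n + l) * (starRingEnd ℂ) (c i n)) := by
      rw [mul_sum]
      exact sum_congr rfl fun n _ => h3 n
    have h6 := shift_bound b k w f hb hk hf1 hw hcop i₀ p q hcp hcq (fun _ => M) u v l
    have h7 : ‖∑ n ∈ range N, z (n + l) * (starRingEnd ℂ) (z n)‖ ≤ (P' : ℝ) * Cl l +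
        4 * (N : ℝ) * ((p + q) * B) * ∑ i, 1 / ((b i ^ M : ℕ) : ℝ) := by
      rw [h5, norm_mul, norm_e, one_mul]
      refine h6.trans ?_
      have : 4 * (N : ℝ) * ((p + q) * l) * ∑ i, 1 / ((b i ^ M : ℕ) : ℝ) ≤
          4 * (N : ℝ) * ((p + q) * B) * ∑ i, 1 / ((b i ^ M : ℕ) : ℝ) := by gcongr
      exact add_le_add le_rfl this
    have h8 : ‖∑ n ∈ range (N - l), z (n + l) * (starRingEnd ℂ) (z n)‖ ≤
        ‖∑ n ∈ range N, z (n + l) * (starRingEnd ℂ) (z n)‖ + l := by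
      rcases le_total l N with hlN | hlN
      · have e1 : ∑ n ∈ range N, z (n + l) * (starRingEnd ℂ) (z n) =
            ∑ n ∈ range (N - l), z (n + l) * (starRingEnd ℂ) (z n) +
            ∑ n ∈ range l, z (N - l + n + l) * (starRingEnd ℂ) (z (N - l + n)) := by
          conv_lhs => rw [show N = (N - l) + l by omega]
          rw [sum_range_add]
        have e2 : ‖∑ n ∈ range l, z (N - l + n + l) * (starRingEnd ℂ) (z (N - l + n))‖ ≤ l := by
          refine (norm_sum_le _ _).trans ?_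
          refine (sum_le_card_nsmul _ _ 1 fun n _ => ?_).trans ?_
          · rw [norm_mul, RCLike.norm_conj, hz1, hz1, one_mul]
          · rw [card_range, nsmul_eq_mul, mul_one]
        have e3 : ∑ n ∈ range (N - l), z (n + l) * (starRingEnd ℂ) (z n) =
            ∑ n ∈ range N, z (n + l) * (starRingEnd ℂ) (z n) -
            ∑ n ∈ range l, z (N - l + n + l) * (starRingEnd ℂ) (z (N - l + n)) := by
          rw [e1]; ring
        rw [e3]
        refine (norm_sub_le _ _).trans ?_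
        linarith
      · rw [Nat.sub_eq_zero_of_le hlN, range_zero, sum_empty, norm_zero]
        positivity
    linarith
  have hsumCl : ∑ l ∈ Ico 1 B, Cl l ≤
      2 * ((b i₀ ^ (M + (k i₀ - 1)) : ℕ) : ℝ) * (ε ^ 2 / 64 * B) := by
    obtain ⟨T, hT⟩ : B ∣ b i₀ ^ (M + (k i₀ - 1)) := pow_dvd_pow _ (by omega)
    have h1 := corr_blocks (c i₀) (fun n => (hc1 i₀ n).le) B T hBpos (ε ^ 2 / 64 * B) (by
      intro y θ'
      have := hm (p * (B * y) + u i₀) (q * (B * y) + v i₀) θ'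
      refine le_trans (le_of_eq ?_) this
      congr 1
      refine sum_congr rfl fun x _ => ?_
      rw [hc]
      simp only [cc]
      rw [show p * (B * y + x) + u i₀ = p * x + (p * (B * y) + u i₀) by ring,
        show q * (B * y + x) + v i₀ = q * x + (q * (B * y) + v i₀) by ring])
    rw [← hT] at h1
    have h2 : ∑ l ∈ Ico 1 B, Cl l ≤ ∑ l ∈ range B, Cl l := by
      apply sum_le_sum_of_subset_of_nonneg
      · intro l hl
        rw [mem_Ico] at hl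
        rw [mem_range]
        omega
      · intro l _ _
        exact norm_nonneg _
    refine h2.trans (h1.trans (le_of_eq ?_))
    rw [hT]
    push_cast
    ring
  have hsum : ∑ l ∈ Ico 1 B, ‖∑ n ∈ range (N - l), z (n + l) * (starRingEnd ℂ) (z n)‖ ≤
      (N : ℝ) * (ε ^ 2 / 32 * B) + (ε ^ 2 / 16 * N + B ^ 2) := by
    refine (sum_le_sum hshift).trans ?_
    rw [sum_add_distrib, ← mul_sum, sum_const, Nat.card_Ico, nsmul_eq_mul]
    have h1 : (P' : ℝ) * ∑ l ∈ Ico 1 B, Cl l ≤ (N : ℝ) * (ε ^ 2 / 32 * B) := by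
      calc (P' : ℝ) * ∑ l ∈ Ico 1 B, Cl l ≤
            P' * (2 * ((b i₀ ^ (M + (k i₀ - 1)) : ℕ) : ℝ) * (ε ^ 2 / 64 * B)) :=
            mul_le_mul_of_nonneg_left hsumCl (Nat.cast_nonneg _)
        _ = (N : ℝ) * (ε ^ 2 / 32 * B) := by
            rw [hNN]
            push_cast
            ring
    have h2 : ((B - 1 : ℕ) : ℝ) ≤ B := by exact_mod_cast Nat.sub_le _ _
    have h3 : 0 ≤ 4 * (N : ℝ) * ((p + q) * B) * ∑ i, 1 / ((b i ^ M : ℕ) : ℝ) + B := by
      have : 0 ≤ ∑ i, 1 / ((b i ^ M : ℕ) : ℝ) := sum_nonneg fun i _ => by positivity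
      positivity
    have h4 : ((B - 1 : ℕ) : ℝ) * (4 * (N : ℝ) * ((p + q) * B) * ∑ i, 1 / ((b i ^ M : ℕ) : ℝ) + B) ≤
        ε ^ 2 / 16 * N + B ^ 2 := by
      calc ((B - 1 : ℕ) : ℝ) * (4 * (N : ℝ) * ((p + q) * B) * ∑ i, 1 / ((b i ^ M : ℕ) : ℝ) + B)
          ≤ B * (4 * (N : ℝ) * ((p + q) * B) * ∑ i, 1 / ((b i ^ M : ℕ) : ℝ) + B) :=
            mul_le_mul_of_nonneg_right h2 h3
        _ = 4 * N * (((p : ℝ) + q) * B ^ 2 * ∑ i, 1 / ((b i ^ M : ℕ) : ℝ)) + B ^ 2 := by ring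
        _ ≤ 4 * N * (ε ^ 2 / 64) + B ^ 2 := by gcongr
        _ = _ := by ring
    linarith
  have hNB : 64 * (B : ℝ) ^ 2 / ε ^ 2 ≤ N := by
    have : (0 : ℝ) ≤ m := Nat.cast_nonneg _
    linarith
  have hB1 : (1 : ℝ) ≤ B := by exact_mod_cast hBpos
  have hNB2 : (B : ℝ) ^ 2 ≤ ε ^ 2 / 64 * N := by
    rw [div_le_iff₀ (by positivity)] at hNB
    linarith
  set S := ‖∑ n ∈ range N, z n‖ with hS
  have hS0 : 0 ≤ S := norm_nonneg _
  have hSN : S ≤ N := by
    refine (norm_sum_le _ _).trans ?_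
    refine (sum_le_card_nsmul _ _ 1 fun n _ => (hz1 n).le).trans ?_
    rw [card_range, nsmul_eq_mul, mul_one]
  show S ≤ ε * N
  by_cases hε1 : 1 ≤ ε
  · refine hSN.trans ?_
    nlinarith
  push Not at hε1
  have hBN : (B : ℝ) ≤ N := by
    have h1 : (B : ℝ) ≤ B ^ 2 := by nlinarith
    have h2 : ε ^ 2 / 64 * N ≤ N := by
      have : ε ^ 2 ≤ 1 := by nlinarith
      nlinarith
    linarith
  have hfin : (B : ℝ) * S ^ 2 ≤ B * (ε * N) ^ 2 := by
    refine hvdc.trans ?_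
    have h1 : (N : ℝ) + 2 * ∑ l ∈ Ico 1 B, ‖∑ n ∈ range (N - l), z (n + l) * (starRingEnd ℂ) (z n)‖ ≤
        N * (ε ^ 2 / 2 * B) := by
      have h2 : (1 : ℝ) ≤ ε ^ 2 / 16 * B := by
        rw [div_le_iff₀ (by positivity)] at hBt
        linarith
      have h3 : (N : ℝ) ≤ N * (ε ^ 2 / 16 * B) := by nlinarith
      have h4 : ε ^ 2 / 16 * N ≤ N * (ε ^ 2 / 16 * B) := by
        have : 0 ≤ ε ^ 2 / 16 * N := by positivity
        nlinarith
      have h5 : (B : ℝ) ^ 2 ≤ N * (ε ^ 2 / 64 * B) := by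
        have : 0 ≤ ε ^ 2 / 64 * N := by positivity
        nlinarith
      have e : (N : ℝ) * (ε ^ 2 / 2 * B) = 8 * (N * (ε ^ 2 / 16 * B)) := by ring
      have e2 : (N : ℝ) * (ε ^ 2 / 32 * B) = 1 / 2 * (N * (ε ^ 2 / 16 * B)) := by ring
      have e3 : (N : ℝ) * (ε ^ 2 / 64 * B) = 1 / 4 * (N * (ε ^ 2 / 16 * B)) := by ring
      rw [e]
      rw [e2] at hsum
      rw [e3] at h5
      have h6 : 0 ≤ (N : ℝ) * (ε ^ 2 / 16 * B) := by positivity
      linarith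
    have h2 : 0 ≤ (N : ℝ) + 2 * ∑ l ∈ Ico 1 B,
        ‖∑ n ∈ range (N - l), z (n + l) * (starRingEnd ℂ) (z n)‖ := by positivity
    calc ((N : ℝ) + B) * (N + 2 * ∑ l ∈ Ico 1 B,
          ‖∑ n ∈ range (N - l), z (n + l) * (starRingEnd ℂ) (z n)‖)
        ≤ (2 * N) * (N * (ε ^ 2 / 2 * B)) := by
          apply mul_le_mul (by linarith) h1 h2 (by positivity)
      _ = _ := by ring
  have h1 : S ^ 2 ≤ (ε * N) ^ 2 := le_of_mul_le_mul_left hfin hBR
  exact (pow_le_pow_iff_left₀ hS0 (by positivity) two_ne_zero).1 h1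

end Pool.Agent.U602.MS
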