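import Pool.Agent.U602.MS.Pts

set_option autoImplicit false

/-! Contraction for the bilinear sums of a block-digital function. -/

namespace Pool.Agent.U602.MS

open Finset
open Pool.Agent.H469R2.NK (e norm_e e_add e_zero conj_e)
open Pool.Agent.TH915.PW (e_int sum_char e_sub sum_blocks)

lemma four_sum (n : ℕ) (τ Z : ℕ → ℂ) (E c : ℝ) (hτ : ∀ r, ‖τ r‖ = 1) (hZ : ∀ r, ‖Z r‖ ≤ E)
    (i₁ i₂ i₃ i₄ : ℕ) (h12 : i₁ ≠ i₂) (h13 : i₁ ≠ i₃) (h14 : i₁ ≠ i₄) (h23 : i₂ ≠ i₃)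
    (h24 : i₂ ≠ i₄) (h34 : i₃ ≠ i₄) (l1 : i₁ < n) (l2 : i₂ < n) (l3 : i₃ < n) (l4 : i₄ < n)
    (e2 : Z i₂ = Z i₁) (e3 : Z i₃ = Z i₁) (e4 : Z i₄ = Z i₁)
    (hc : ‖τ i₁ + τ i₂ + τ i₃ + τ i₄‖ ≤ 4 - c) :
    ‖∑ r ∈ range n, τ r * Z r‖ ≤ (n - c) * E := by
  have hE : 0 ≤ E := (norm_nonneg _).trans (hZ 0)
  set T : Finset ℕ := {i₁, i₂, i₃, i₄} with hT
  have hsub : T ⊆ range n := by
    intro x hx
    rw [hT] at hx
    simp only [mem_insert, mem_singleton] at hx
    rw [mem_range]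
    rcases hx with rfl | rfl | rfl | rfl <;> assumption
  have hcard : T.card = 4 := by
    rw [hT, card_insert_of_notMem, card_insert_of_notMem, card_insert_of_notMem, card_singleton]
    · simpa using h34
    · simp only [mem_insert, mem_singleton, not_or]; exact ⟨h23, h24⟩
    · simp only [mem_insert, mem_singleton, not_or]; exact ⟨h12, h13, h14⟩
  have hn4 : 4 ≤ n := by
    have := card_le_card hsub
    rw [hcard, card_range] at this
    exact this
  rw [← sum_sdiff hsub]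
  refine (norm_add_le _ _).trans ?_
  have h1 : ‖∑ r ∈ range n \ T, τ r * Z r‖ ≤ (n - 4) * E := by
    refine (norm_sum_le _ _).trans ?_
    refine (sum_le_card_nsmul _ _ E fun r _ => ?_).trans ?_
    · rw [norm_mul, hτ, one_mul]; exact hZ r
    · rw [card_sdiff_of_subset hsub, hcard, card_range, nsmul_eq_mul]
      push_cast [Nat.cast_sub hn4]
      exact le_rfl
  have h2 : ‖∑ r ∈ T, τ r * Z r‖ ≤ (4 - c) * E := by
    have : ∑ r ∈ T, τ r * Z r = (τ i₁ + τ i₂ + τ i₃ + τ i₄) * Z i₁ := by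
      rw [hT, sum_insert, sum_insert, sum_insert, sum_singleton, e2, e3, e4]
      · ring
      · simpa using h34
      · simp only [mem_insert, mem_singleton, not_or]; exact ⟨h23, h24⟩
      · simp only [mem_insert, mem_singleton, not_or]; exact ⟨h12, h13, h14⟩
    rw [this, norm_mul]
    have h4c : 0 ≤ 4 - c := (norm_nonneg _).trans hc
    exact mul_le_mul hc (hZ _) (norm_nonneg _) h4c
  linarith

lemma uni (z z' : ℂ) (h : ‖z‖ = 1) : z' = z * (z' * (starRingEnd ℂ) z) := by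
  have : z * (starRingEnd ℂ) z = 1 := by
    rw [Complex.mul_conj', h]; norm_num
  calc z' = z' * (z * (starRingEnd ℂ) z) := by rw [this, mul_one]
    _ = _ := by ring

lemma uni1 (z : ℂ) (h : ‖z‖ = 1) : z * (starRingEnd ℂ) z = 1 := by
  rw [Complex.mul_conj', h]; norm_num

theorem contr (b k p q : ℕ) (w f : ℕ → ℂ) (hb : 2 ≤ b) (hk : 1 ≤ k) (hf1 : ∀ n, ‖f n‖ = 1)
    (hf : ∀ n, f n = f (n / b) * w (n % b ^ k)) (hp3 : 3 ≤ p) (hq : 0 < q)
    (hpb : p.Coprime b) (hpq : ¬ p ∣ b ^ (k - 1) * q) (hnd : ¬ Deg b k f) :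
    ∃ K : ℕ, ∃ c : ℝ, 0 < c ∧ ∀ (X : ℕ) (E : ℝ), (∀ (u v : ℕ) (θ : ℝ),
      ‖∑ x ∈ range X, f (b ^ (k - 1) * p * x + u) *
        (starRingEnd ℂ) (f (b ^ (k - 1) * q * x + v)) * e (x * θ)‖ ≤ E) →
      ∀ (u v : ℕ) (θ : ℝ), ‖∑ x ∈ range (b ^ K * X), f (b ^ (k - 1) * p * x + u) *
        (starRingEnd ℂ) (f (b ^ (k - 1) * q * x + v)) * e (x * θ)‖ ≤ ((b ^ K : ℕ) - c) * E := by
  unfold Deg at hnd
  push Not at hnd
  obtain ⟨n₁, n₂, h12, hD⟩ := hnd
  set M : ℕ := max (n₁ + 1) (n₂ + 1) with hM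
  have hM1 : n₁ + 1 < b ^ M := lt_of_le_of_lt (le_max_left _ _) (Nat.lt_pow_self (by omega))
  have hM2 : n₂ + 1 < b ^ M := lt_of_le_of_lt (le_max_right _ _) (Nat.lt_pow_self (by omega))
  have hMM : b ^ M ≤ b ^ (M + (k - 1)) := Nat.pow_le_pow_right (by omega) (by omega)
  have hm1 : n₁ % b ^ (M + (k - 1)) = n₁ := Nat.mod_eq_of_lt (by omega)
  have hm2 : n₂ % b ^ (M + (k - 1)) = n₂ := Nat.mod_eq_of_lt (by omega)
  obtain ⟨J, K, hJK, hpts⟩ := pts b k p q M n₁ n₂ hb hp3 hq hpb hpq h12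
  refine ⟨K, ‖DD f n₁ - DD f n₂‖ ^ 2 / 16, by
    have : 0 < ‖DD f n₁ - DD f n₂‖ := norm_pos_iff.2 (sub_ne_zero.2 hD)
    positivity, ?_⟩
  intro X E hE u v θ
  obtain ⟨r₀, r₁, r₂, a, A, A', c1, c2, c3, c4, c5, c6, c7, c8, c9⟩ := hpts u v
  rw [hm1] at c7
  rw [hm2] at c8
  set P := b ^ (k - 1) * p with hP
  set Q := b ^ (k - 1) * q with hQ
  have hDD1 : DD f (P * r₁ + a) = DD f n₁ := DD_local hb hk hf1 hf M _ n₁ hM1 c7
  have hDD2 : DD f (P * r₂ + a) = DD f n₂ := DD_local hb hk hf1 hf M _ n₂ hM2 c8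
  have hWn : ∀ K n, ‖WW b k w K n‖ = 1 := norm_WW hf1 hf
  set τ : ℕ → ℂ := fun r => WW b k w K (P * r + u) *
    (starRingEnd ℂ) (WW b k w K (Q * r + v)) * e (r * θ) with hτ
  set Z : ℕ → ℂ := fun r => ∑ m ∈ range X, f (P * m + (P * r + u) / b ^ K) *
    (starRingEnd ℂ) (f (Q * m + (Q * r + v) / b ^ K)) * e (m * (((b ^ K : ℕ) : ℝ) * θ)) with hZ
  have hsum : ∑ x ∈ range (b ^ K * X), f (P * x + u) * (starRingEnd ℂ) (f (Q * x + v)) * e (x * θ) =
      ∑ r ∈ range (b ^ K), τ r * Z r := by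
    rw [sum_blocks, sum_comm]
    refine sum_congr rfl fun r _ => ?_
    rw [hZ]
    simp only
    rw [mul_sum]
    refine sum_congr rfl fun m _ => ?_
    have e1 : f (P * (b ^ K * m + r) + u) = f (P * m + (P * r + u) / b ^ K) *
        WW b k w K (P * r + u) := by
      rw [hP, ← f_star hb hk hf]
      congr 1
      ring
    have e2 : f (Q * (b ^ K * m + r) + v) = f (Q * m + (Q * r + v) / b ^ K) *
        WW b k w K (Q * r + v) := by
      rw [hQ, ← f_star hb hk hf]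
      congr 1
      ring
    have e3 : e (((b ^ K * m + r : ℕ) : ℝ) * θ) = e (r * θ) * e (m * (((b ^ K : ℕ) : ℝ) * θ)) := by
      rw [← e_add]
      congr 1
      push_cast
      ring
    rw [e1, e2, e3, map_mul, hτ]
    simp only
    ring
  have hZn : ∀ r, ‖Z r‖ ≤ E := fun r => hE _ _ _
  have hτn : ∀ r, ‖τ r‖ = 1 := by
    intro r
    rw [hτ]
    simp only
    rw [norm_mul, norm_mul, RCLike.norm_conj, hWn, hWn, norm_e]
    norm_num
  set C : ℂ := WW b k w J (P * (r₀ + 1) + u) * (starRingEnd ℂ) (WW b k w J (P * r₀ + u)) *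
    (starRingEnd ℂ) (WW b k w J (Q * (r₀ + 1) + v) * (starRingEnd ℂ) (WW b k w J (Q * r₀ + v))) *
    e θ with hC
  have hCn : ‖C‖ = 1 := by
    rw [hC]
    simp only [norm_mul, RCLike.norm_conj, hWn, norm_e]
    norm_num
  have hstep : ∀ i, (i = r₁ ∨ i = r₂) →
      τ (b ^ J * i + r₀ + 1) = τ (b ^ J * i + r₀) * (C * DD f (P * i + a)) := by
    intro i hi
    obtain ⟨g1, g2⟩ := c9 i r₀ hi (Or.inl rfl)
    obtain ⟨g3, g4⟩ := c9 i (r₀ + 1) hi (Or.inr rfl)
    have e1 : f (P * (b ^ J * i + r₀) + u) = f (P * i + a) * WW b k w J (P * r₀ + u) := by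
      rw [← c4, hP, ← f_star hb hk hf]
      congr 1
      ring
    have e2 : f (P * (b ^ J * i + (r₀ + 1)) + u) = f (P * i + (a + 1)) *
        WW b k w J (P * (r₀ + 1) + u) := by
      rw [← c5, hP, ← f_star hb hk hf]
      congr 1
      ring
    have e3 : f (P * (b ^ J * i + r₀) + u) = f A * WW b k w K (P * (b ^ J * i + r₀) + u) := by
      conv_lhs => rw [f_split hb hf K]
      rw [g1]
    have e4 : f (P * (b ^ J * i + (r₀ + 1)) + u) =
        f A * WW b k w K (P * (b ^ J * i + (r₀ + 1)) + u) := by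
      conv_lhs => rw [f_split hb hf K]
      rw [g3]
    have e5 : f (Q * (b ^ J * i + r₀) + v) = f (Q * i + (Q * r₀ + v) / b ^ J) *
        WW b k w J (Q * r₀ + v) := by
      rw [hQ, ← f_star hb hk hf]
      congr 1
      ring
    have e6 : f (Q * (b ^ J * i + (r₀ + 1)) + v) = f (Q * i + (Q * r₀ + v) / b ^ J) *
        WW b k w J (Q * (r₀ + 1) + v) := by
      rw [← c6, hQ, ← f_star hb hk hf]
      congr 1
      ring
    have e7 : f (Q * (b ^ J * i + r₀) + v) = f A' * WW b k w K (Q * (b ^ J * i + r₀) + v) := by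
      conv_lhs => rw [f_split hb hf K]
      rw [g2]
    have e8 : f (Q * (b ^ J * i + (r₀ + 1)) + v) =
        f A' * WW b k w K (Q * (b ^ J * i + (r₀ + 1)) + v) := by
      conv_lhs => rw [f_split hb hf K]
      rw [g4]
    have hA := uni1 (f A) (hf1 A)
    have hA' := uni1 (f A') (hf1 A')
    have ha' := uni1 (f (Q * i + (Q * r₀ + v) / b ^ J)) (hf1 _)
    -- ratios
    have rP : WW b k w K (P * (b ^ J * i + (r₀ + 1)) + u) *
        (starRingEnd ℂ) (WW b k w K (P * (b ^ J * i + r₀) + u)) =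
        DD f (P * i + a) * (WW b k w J (P * (r₀ + 1) + u) *
          (starRingEnd ℂ) (WW b k w J (P * r₀ + u))) := by
      calc WW b k w K (P * (b ^ J * i + (r₀ + 1)) + u) *
            (starRingEnd ℂ) (WW b k w K (P * (b ^ J * i + r₀) + u))
          = (f A * (starRingEnd ℂ) (f A)) * (WW b k w K (P * (b ^ J * i + (r₀ + 1)) + u) *
            (starRingEnd ℂ) (WW b k w K (P * (b ^ J * i + r₀) + u))) := by rw [hA, one_mul]
        _ = (f A * WW b k w K (P * (b ^ J * i + (r₀ + 1)) + u)) *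
            (starRingEnd ℂ) (f A * WW b k w K (P * (b ^ J * i + r₀) + u)) := by
            rw [map_mul]; ring
        _ = (f (P * i + (a + 1)) * WW b k w J (P * (r₀ + 1) + u)) *
            (starRingEnd ℂ) (f (P * i + a) * WW b k w J (P * r₀ + u)) := by
            rw [← e3, ← e4, e1, e2]
        _ = _ := by
            unfold DD
            rw [map_mul, ← add_assoc]
            ring
    have rQ : WW b k w K (Q * (b ^ J * i + (r₀ + 1)) + v) *
        (starRingEnd ℂ) (WW b k w K (Q * (b ^ J * i + r₀) + v)) =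
        WW b k w J (Q * (r₀ + 1) + v) * (starRingEnd ℂ) (WW b k w J (Q * r₀ + v)) := by
      calc WW b k w K (Q * (b ^ J * i + (r₀ + 1)) + v) *
            (starRingEnd ℂ) (WW b k w K (Q * (b ^ J * i + r₀) + v))
          = (f A' * (starRingEnd ℂ) (f A')) * (WW b k w K (Q * (b ^ J * i + (r₀ + 1)) + v) *
            (starRingEnd ℂ) (WW b k w K (Q * (b ^ J * i + r₀) + v))) := by rw [hA', one_mul]
        _ = (f A' * WW b k w K (Q * (b ^ J * i + (r₀ + 1)) + v)) *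
            (starRingEnd ℂ) (f A' * WW b k w K (Q * (b ^ J * i + r₀) + v)) := by
            rw [map_mul]; ring
        _ = (f (Q * i + (Q * r₀ + v) / b ^ J) * WW b k w J (Q * (r₀ + 1) + v)) *
            (starRingEnd ℂ) (f (Q * i + (Q * r₀ + v) / b ^ J) * WW b k w J (Q * r₀ + v)) := by
            rw [← e7, ← e8, e5, e6]
        _ = (f (Q * i + (Q * r₀ + v) / b ^ J) *
              (starRingEnd ℂ) (f (Q * i + (Q * r₀ + v) / b ^ J))) *
            (WW b k w J (Q * (r₀ + 1) + v) * (starRingEnd ℂ) (WW b k w J (Q * r₀ + v))) := by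
            rw [map_mul]; ring
        _ = _ := by rw [ha', one_mul]
    rw [uni (τ (b ^ J * i + r₀)) (τ (b ^ J * i + r₀ + 1)) (hτn _)]
    congr 1
    have e9 : e (((b ^ J * i + r₀ + 1 : ℕ) : ℝ) * θ) *
        (starRingEnd ℂ) (e (((b ^ J * i + r₀ : ℕ) : ℝ) * θ)) = e θ := by
      rw [← e_sub]
      congr 1
      push_cast
      ring
    rw [hτ, hC]
    simp only
    rw [map_mul, map_mul, Complex.conj_conj]
    calc WW b k w K (P * (b ^ J * i + r₀ + 1) + u) *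
            (starRingEnd ℂ) (WW b k w K (Q * (b ^ J * i + r₀ + 1) + v)) *
            e (((b ^ J * i + r₀ + 1 : ℕ) : ℝ) * θ) *
          ((starRingEnd ℂ) (WW b k w K (P * (b ^ J * i + r₀) + u)) *
            WW b k w K (Q * (b ^ J * i + r₀) + v) *
            (starRingEnd ℂ) (e (((b ^ J * i + r₀ : ℕ) : ℝ) * θ)))
        = (WW b k w K (P * (b ^ J * i + (r₀ + 1)) + u) *
            (starRingEnd ℂ) (WW b k w K (P * (b ^ J * i + r₀) + u))) *
          (starRingEnd ℂ) (WW b k w K (Q * (b ^ J * i + (r₀ + 1)) + v) *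
            (starRingEnd ℂ) (WW b k w K (Q * (b ^ J * i + r₀) + v))) *
          (e (((b ^ J * i + r₀ + 1 : ℕ) : ℝ) * θ) *
            (starRingEnd ℂ) (e (((b ^ J * i + r₀ : ℕ) : ℝ) * θ))) := by
          rw [map_mul, Complex.conj_conj, ← add_assoc]
          ring
      _ = _ := by
          rw [rP, rQ, e9]
          ring
  rw [hsum]
  have hne : r₁ ≠ r₂ := by
    rintro rfl
    exact hD (by rw [← hDD1, ← hDD2])
  have hJ0 : 0 < b ^ J := by positivity
  have hsep : ∀ i i' j j', j < b ^ J → j' < b ^ J → i ≠ i' → b ^ J * i + j ≠ b ^ J * i' + j' := by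
    intro i i' j j' hj hj' hii h
    apply hii
    have h1 : (b ^ J * i + j) / b ^ J = i := by
      rw [Nat.mul_add_div hJ0, Nat.div_eq_of_lt hj, add_zero]
    have h2 : (b ^ J * i' + j') / b ^ J = i' := by
      rw [Nat.mul_add_div hJ0, Nat.div_eq_of_lt hj', add_zero]
    rw [← h1, h, h2]
  have hlt : ∀ i j, j < b ^ J → b ^ J * (i + 1) ≤ b ^ K → b ^ J * i + j < b ^ K := by
    intro i j hj hi
    calc b ^ J * i + j < b ^ J * i + b ^ J := by omega
      _ = b ^ J * (i + 1) := by ring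
      _ ≤ _ := hi
  have hZeq : ∀ i j, (i = r₁ ∨ i = r₂) → (j = r₀ ∨ j = r₀ + 1) → Z (b ^ J * i + j) =
      ∑ m ∈ range X, f (P * m + A) * (starRingEnd ℂ) (f (Q * m + A')) *
        e (m * (((b ^ K : ℕ) : ℝ) * θ)) := by
    intro i j hi hj
    obtain ⟨g1, g2⟩ := c9 i j hi hj
    rw [hZ]
    simp only
    rw [g1, g2]
  have z1 := hZeq r₁ r₀ (Or.inl rfl) (Or.inl rfl)
  have z2 := hZeq r₁ (r₀ + 1) (Or.inl rfl) (Or.inr rfl)
  have z3 := hZeq r₂ r₀ (Or.inr rfl) (Or.inl rfl)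
  have z4 := hZeq r₂ (r₀ + 1) (Or.inr rfl) (Or.inr rfl)
  have hfour := four_sum (b ^ K) τ Z E (‖DD f n₁ - DD f n₂‖ ^ 2 / 16) hτn hZn
    (b ^ J * r₁ + r₀) (b ^ J * r₁ + (r₀ + 1)) (b ^ J * r₂ + r₀) (b ^ J * r₂ + (r₀ + 1))
    (by omega) (hsep _ _ _ _ (by omega) (by omega) hne) (hsep _ _ _ _ (by omega) (by omega) hne)
    (hsep _ _ _ _ (by omega) (by omega) hne) (hsep _ _ _ _ (by omega) (by omega) hne) (by omega)
    (hlt _ _ (by omega) c2) (hlt _ _ (by omega) c2) (hlt _ _ (by omega) c3) (hlt _ _ (by omega) c3)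
    (z2.trans z1.symm) (z3.trans z1.symm) (z4.trans z1.symm) (by
      rw [← add_assoc, ← add_assoc, hstep r₁ (Or.inl rfl), hstep r₂ (Or.inr rfl), hDD1, hDD2]
      refine four_bound _ _ _ _ _ (hτn _) (hτn _) hCn ?_ ?_
      · unfold DD; rw [norm_mul, RCLike.norm_conj, hf1, hf1, one_mul]
      · unfold DD; rw [norm_mul, RCLike.norm_conj, hf1, hf1, one_mul])
  exact hfour

end Pool.Agent.U602.MS
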