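import Pool.Agent.U602.MS.Bil
import Pool.Agent.N213.BM.Kat
import Pool.Agent.H446R3.SK.Mob

set_option autoImplicit false
set_option linter.unusedSectionVars false

/-! Sums of `μ(n) ∏ f_i(n + c_i) e(nθ)`. -/

namespace Pool.Agent.U602.MS

open Finset
open Pool.Agent.H469R2.NK (e norm_e e_add e_zero conj_e)
open Pool.Agent.TH915.PW (e_int sum_char e_sub)

/-- the Möbius function with complex values -/
noncomputable def mob (n : ℕ) : ℂ := ((ArithmeticFunction.moebius n : ℤ) : ℂ)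

/-- multiplication by periodic functions -/
lemma per_mul (G : ℕ → ℂ) (N Q : ℕ) (hQ : 0 < Q) (E : ℝ)
    (hG : ∀ θ : ℝ, ‖∑ n ∈ Ioc 0 N, G n * e (n * θ)‖ ≤ E)
    (P : ℕ → ℂ) (hP : ∀ n, P (n + Q) = P n) (hP1 : ∀ n, ‖P n‖ ≤ 1) (θ : ℝ) :
    ‖∑ n ∈ Ioc 0 N, G n * P n * e (n * θ)‖ ≤ Q * E := by
  have hQR : (0 : ℝ) < Q := by exact_mod_cast hQ
  have hE : 0 ≤ E := (norm_nonneg _).trans (hG 0)
  have hPm : ∀ n, P n = P (n % Q) := by
    intro n
    have h1 : ∀ m r : ℕ, P (r + Q * m) = P r := by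
      intro m
      induction m with
      | zero => intro r; simp
      | succ m ih =>
        intro r
        rw [show r + Q * (m + 1) = (r + Q * m) + Q by ring, hP, ih]
    conv_lhs => rw [← Nat.mod_add_div n Q]
    exact h1 _ _
  have hind : ∀ n r : ℕ, r < Q → ∑ j ∈ range Q, e ((((n : ℤ) - r : ℤ) : ℝ) * ((j : ℝ) / Q)) =
      if n % Q = r then (Q : ℂ) else 0 := by
    intro n r hr
    split_ifs with hc
    · have hd : ∃ z : ℤ, (n : ℤ) - r = Q * z := by
        refine ⟨((n / Q : ℕ) : ℤ), ?_⟩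
        have := Nat.mod_add_div n Q
        rw [hc] at this
        have h2 : (n : ℤ) = r + Q * ((n / Q : ℕ) : ℤ) := by exact_mod_cast this.symm
        rw [h2]; ring
      obtain ⟨z, hz⟩ := hd
      have : ∀ j ∈ range Q, e ((((n : ℤ) - r : ℤ) : ℝ) * ((j : ℝ) / Q)) = 1 := by
        intro j _
        rw [hz]
        have : (((Q : ℤ) * z : ℤ) : ℝ) * ((j : ℝ) / Q) = ((z * j : ℤ) : ℝ) := by
          push_cast
          field_simp
        rw [this, e_int]
      rw [sum_congr rfl this]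
      simp
    · refine sum_char Q hQ _ ?_
      rintro ⟨z, hz⟩
      apply hc
      have h1 : (n : ℤ) = r + Q * z := by linarith
      have h2 : (n : ℤ) % Q = r := by
        rw [h1, Int.add_mul_emod_self_left]
        exact Int.emod_eq_of_lt (by positivity) (by exact_mod_cast hr)
      exact_mod_cast h2
  have key : ∀ n, (Q : ℂ) * P n = ∑ r ∈ range Q, P r *
      ∑ j ∈ range Q, e ((((n : ℤ) - r : ℤ) : ℝ) * ((j : ℝ) / Q)) := by
    intro n
    rw [sum_congr rfl (fun r hr => by rw [hind n r (mem_range.1 hr)])]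
    simp only [mul_ite, mul_zero]
    rw [Finset.sum_ite_eq, if_pos (mem_range.2 (Nat.mod_lt _ hQ)), hPm n]
    ring
  have hsum : (Q : ℂ) * ∑ n ∈ Ioc 0 N, G n * P n * e (n * θ) =
      ∑ r ∈ range Q, ∑ j ∈ range Q, P r * e (-(r : ℝ) * ((j : ℝ) / Q)) *
        ∑ n ∈ Ioc 0 N, G n * e (n * (θ + (j : ℝ) / Q)) := by
    have h1 : ∀ n ∈ Ioc 0 N, (Q : ℂ) * (G n * P n * e (n * θ)) =
        ∑ r ∈ range Q, ∑ j ∈ range Q, P r * e (-(r : ℝ) * ((j : ℝ) / Q)) *
          (G n * e (n * (θ + (j : ℝ) / Q))) := by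
      intro n _
      calc (Q : ℂ) * (G n * P n * e (n * θ)) = (Q * P n) * (G n * e (n * θ)) := by ring
        _ = _ := by
          rw [key n, sum_mul]
          refine sum_congr rfl fun r _ => ?_
          rw [mul_sum, sum_mul]
          refine sum_congr rfl fun j _ => ?_
          have e1 : e ((((n : ℤ) - r : ℤ) : ℝ) * ((j : ℝ) / Q)) =
              e (n * ((j : ℝ) / Q)) * e (-(r : ℝ) * ((j : ℝ) / Q)) := by
            rw [← e_add]
            congr 1
            push_cast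
            ring
          rw [e1, mul_add, e_add]
          ring
    rw [mul_sum, sum_congr rfl h1, sum_comm]
    refine sum_congr rfl fun r _ => ?_
    rw [sum_comm]
    refine sum_congr rfl fun j _ => ?_
    rw [mul_sum]
  have h2 : ‖(Q : ℂ) * ∑ n ∈ Ioc 0 N, G n * P n * e (n * θ)‖ ≤ Q * (Q * E) := by
    rw [hsum]
    refine (norm_sum_le _ _).trans ?_
    have : ∀ r ∈ range Q, ‖∑ j ∈ range Q, P r * e (-(r : ℝ) * ((j : ℝ) / Q)) *
        ∑ n ∈ Ioc 0 N, G n * e (n * (θ + (j : ℝ) / Q))‖ ≤ Q * E := by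
      intro r _
      refine (norm_sum_le _ _).trans ?_
      have h3 : ∀ j ∈ range Q, ‖P r * e (-(r : ℝ) * ((j : ℝ) / Q)) *
        ∑ n ∈ Ioc 0 N, G n * e (n * (θ + (j : ℝ) / Q))‖ ≤ E := by
        intro j _
        rw [norm_mul, norm_mul, norm_e, mul_one]
        calc ‖P r‖ * ‖∑ n ∈ Ioc 0 N, G n * e (n * (θ + (j : ℝ) / Q))‖ ≤ 1 * E :=
              mul_le_mul (hP1 r) (hG _) (norm_nonneg _) zero_le_one
          _ = E := one_mul E
      refine (sum_le_card_nsmul _ _ _ h3).trans ?_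
      rw [card_range, nsmul_eq_mul]
    refine (sum_le_card_nsmul _ _ _ this).trans ?_
    rw [card_range, nsmul_eq_mul]
  rw [norm_mul, Complex.norm_natCast] at h2
  exact le_of_mul_le_mul_left h2 hQR

/-- Davenport -/
lemma dav_e (ε : ℝ) (hε : 0 < ε) : ∃ N₀ : ℕ, ∀ N, N₀ ≤ N → ∀ θ : ℝ,
    ‖∑ n ∈ Ioc 0 N, mob n * e (n * θ)‖ ≤ ε * N := by
  obtain ⟨N₀, h⟩ := Pool.Agent.H446R3.SK.dav_eps (ε / 2) (by positivity)
  refine ⟨max N₀ 1, fun N hN θ => ?_⟩
  have h1 := h (N + 1) (by have := le_max_left N₀ 1; omega) θ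
  have hN1 : 1 ≤ N := (le_max_right _ _).trans hN
  have hNR : (1 : ℝ) ≤ N := by exact_mod_cast hN1
  have e1 : ∑ n ∈ Ioc 0 N, mob n * e (n * θ) =
      ∑ n ∈ range (N + 1), Pool.Agent.H446R3.SK.mt θ n := by
    rw [sum_range_succ']
    have e0 : Pool.Agent.H446R3.SK.mt θ 0 = 0 := by simp [Pool.Agent.H446R3.SK.mt]
    rw [e0, add_zero]
    rw [show Ioc 0 N = (range N).map ⟨fun n => n + 1, fun a b hab => by simpa using hab⟩ by
      ext n
      simp only [mem_Ioc, mem_map, mem_range, Function.Embedding.coeFn_mk]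
      constructor
      · rintro ⟨h1, h2⟩
        exact ⟨n - 1, by omega, by omega⟩
      · rintro ⟨m, hm, rfl⟩
        omega]
    rw [sum_map]
    refine sum_congr rfl fun n _ => ?_
    simp only [Function.Embedding.coeFn_mk]
    unfold Pool.Agent.H446R3.SK.mt mob e
    congr 2
    push_cast
    ring
  rw [e1]
  refine h1.trans ?_
  push_cast
  nlinarith

lemma deg_shift {b k : ℕ} {f : ℕ → ℂ} (hf1 : ∀ n, ‖f n‖ = 1) (hd : Deg b k f) :
    ∃ κ : ℂ, ‖κ‖ = 1 ∧ ∀ n, f (n + b ^ (k - 1)) = κ * f n := by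
  set β := b ^ (k - 1) with hβ
  have hcc : ∀ n, f n * (starRingEnd ℂ) (f n) = 1 := fun n => by
    rw [Complex.mul_conj', hf1]; norm_num
  refine ⟨f β * (starRingEnd ℂ) (f 0), by rw [norm_mul, RCLike.norm_conj, hf1, hf1, one_mul], ?_⟩
  have hs : ∀ n, f (n + 1) = DD f n * f n := by
    intro n
    unfold DD
    rw [mul_assoc, mul_comm ((starRingEnd ℂ) (f n)), hcc, mul_one]
  intro n
  induction n with
  | zero =>
    rw [zero_add, mul_assoc, mul_comm ((starRingEnd ℂ) (f 0)), hcc, mul_one]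
  | succ n ih =>
    rw [show n + 1 + β = (n + β) + 1 by ring, hs (n + β), hs n, ih,
      hd (n + β) n (by rw [← hβ]; simp)]
    ring

lemma deg_form {b k : ℕ} {f : ℕ → ℂ} (hb : 2 ≤ b) (hf1 : ∀ n, ‖f n‖ = 1) (hd : Deg b k f) :
    ∃ (α : ℝ) (g : ℕ → ℂ), (∀ n, ‖g n‖ ≤ 1) ∧ (∀ n, g (n + b ^ (k - 1)) = g n) ∧
      ∀ n, f n = g n * e (n * α) := by
  obtain ⟨κ, hκ, h⟩ := deg_shift hf1 hd
  have hβ : 0 < b ^ (k - 1) := by positivity
  have hβR : (0 : ℝ) < ((b ^ (k - 1) : ℕ) : ℝ) := by exact_mod_cast hβ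
  set α : ℝ := Complex.arg κ / (2 * Real.pi * ((b ^ (k - 1) : ℕ) : ℝ)) with hα
  have h1 : e (((b ^ (k - 1) : ℕ) : ℝ) * α) = κ := by
    have h2 := Complex.norm_mul_exp_arg_mul_I κ
    rw [hκ, Complex.ofReal_one, one_mul] at h2
    unfold e
    rw [← h2]
    congr 2
    congr 1
    rw [hα]
    have := Real.pi_pos.ne'
    field_simp
  refine ⟨α, fun n => f n * e (-(n * α)), fun n => ?_, fun n => ?_, fun n => ?_⟩
  · rw [norm_mul, norm_e, hf1, one_mul]
  · simp only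
    rw [h n, ← h1]
    have : e (-((n + b ^ (k - 1) : ℕ) * α)) =
        e (-(n * α)) * e (-(((b ^ (k - 1) : ℕ) : ℝ) * α)) := by
      rw [← e_add]
      congr 1
      push_cast
      ring
    rw [this]
    have h3 : e (((b ^ (k - 1) : ℕ) : ℝ) * α) * e (-(((b ^ (k - 1) : ℕ) : ℝ) * α)) = 1 := by
      rw [← e_add, add_neg_cancel, e_zero]
    calc e (((b ^ (k - 1) : ℕ) : ℝ) * α) * f n *
          (e (-(n * α)) * e (-(((b ^ (k - 1) : ℕ) : ℝ) * α)))
        = (e (((b ^ (k - 1) : ℕ) : ℝ) * α) * e (-(((b ^ (k - 1) : ℕ) : ℝ) * α))) *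
          (f n * e (-(n * α))) := by ring
      _ = _ := by rw [h3, one_mul]
  · simp only
    rw [mul_assoc, ← e_add, neg_add_cancel, e_zero, mul_one]

variable {ι : Type} [Fintype ι] [DecidableEq ι]

theorem core_nd (b k : ι → ℕ) (f : ι → ℕ → ℂ) (h : ∀ i, BD (b i) (k i) (f i))
    (hcop : ∀ i j, i ≠ j → (b i).Coprime (b j)) (i₀ : ι) (hnd : ¬ Deg (b i₀) (k i₀) (f i₀))
    (ε : ℝ) (hε : 0 < ε) :
    ∃ N₀ : ℕ, ∀ N, N₀ ≤ N → ∀ (c : ι → ℕ) (θ : ℝ),
      ‖∑ n ∈ Ioc 0 N, mob n * (∏ i, f i (n + c i)) * e (n * θ)‖ ≤ ε * N := by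
  have hf1 : ∀ i n, ‖f i n‖ = 1 := fun i => (h i).norm
  obtain ⟨P, δ, N₁, hδ, hδ1, hP, hkat⟩ := Pool.Agent.N213.BM.kat_blocks ε hε (2 + ∑ i, b i)
  have hbil : ∀ p q : ℕ, ∃ B : ℕ, p ∈ P → q ∈ P → p < q → 1 ≤ B ∧ ∀ (u v : ι → ℕ) (θ : ℝ),
      ‖∑ x ∈ range B, (∏ i, cc (f i) p q (u i) (v i) x) * e (x * θ)‖ ≤ δ * B := by
    intro p q
    by_cases hc : p ∈ P ∧ q ∈ P ∧ p < q
    · obtain ⟨h1, h2, h3⟩ := hc
      have hpn : ∀ r ∈ P, ∀ i, ¬ r ∣ b i := by
        intro r hr i hd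
        have h4 := (hP r hr).2
        have h5 : b i ≤ ∑ i, b i := single_le_sum (fun _ _ => Nat.zero_le _) (mem_univ i)
        have h6 := Nat.le_of_dvd (by have := (h i).two; omega) hd
        omega
      obtain ⟨B, hB1, hB2⟩ := bil b k f h hcop i₀ hnd p q (hP p h1).1 (hP q h2).1
        (by have := (hP p h1).2; omega) (by omega) (hpn p h1) (hpn q h2) δ hδ
      exact ⟨B, fun _ _ _ => ⟨hB1, hB2⟩⟩
    · exact ⟨0, fun h1 h2 h3 => absurd ⟨h1, h2, h3⟩ hc⟩
  choose Bf hBf using hbil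
  obtain ⟨N₂, hN₂⟩ := exists_nat_ge ((∑ p ∈ P, ∑ q ∈ P, (Bf p q : ℝ)) / δ)
  refine ⟨max N₁ N₂, fun N hN c θ => ?_⟩
  have hN2 : (∑ p ∈ P, ∑ q ∈ P, (Bf p q : ℝ)) ≤ δ * N := by
    rw [div_le_iff₀ hδ] at hN₂
    have : (N₂ : ℝ) ≤ N := by exact_mod_cast (le_max_right _ _).trans hN
    nlinarith
  have hres := hkat N (le_trans (le_max_left _ _) hN)
    (fun n => (∏ i, f i (n + c i)) * e (n * θ)) (fun n => ?_) ?_ _ Pool.Agent.N213.BM.kf_mu
  · refine le_trans (le_of_eq ?_) hres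
    congr 1
    refine sum_congr rfl fun n _ => ?_
    unfold mob
    ring
  · rw [norm_mul, norm_e, mul_one, norm_prod]
    exact le_of_eq (prod_eq_one fun i _ => hf1 i _)
  · intro p hp q hq hpq
    obtain ⟨h1, h2⟩ := hBf p q hp hq hpq
    refine ⟨Bf p q, h1, ?_, fun t => ?_⟩
    · refine le_trans ?_ hN2
      refine le_trans ?_ (single_le_sum (f := fun p => ∑ q ∈ P, (Bf p q : ℝ))
        (fun p _ => sum_nonneg fun q _ => Nat.cast_nonneg _) hp)
      exact single_le_sum (f := fun q => (Bf p q : ℝ)) (fun q _ => Nat.cast_nonneg _) hq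
    · have h3 := h2 (fun i => p * (Bf p q * t) + c i) (fun i => q * (Bf p q * t) + c i)
        (((p : ℝ) - q) * θ)
      refine le_trans (le_of_eq ?_) h3
      have h4 : ∀ x : ℕ, ((∏ i, f i (p * (x + Bf p q * t) + c i)) *
            e (((p * (x + Bf p q * t) : ℕ) : ℝ) * θ)) *
          star ((∏ i, f i (q * (x + Bf p q * t) + c i)) *
            e (((q * (x + Bf p q * t) : ℕ) : ℝ) * θ)) =
          e ((((p : ℝ) - q) * (Bf p q * t)) * θ) *
            ((∏ i, cc (f i) p q (p * (Bf p q * t) + c i) (q * (Bf p q * t) + c i) x) *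
              e (x * (((p : ℝ) - q) * θ))) := by
        intro x
        have e1 : ∀ i, p * (x + Bf p q * t) + c i = p * x + (p * (Bf p q * t) + c i) := by
          intro i; ring
        have e2 : ∀ i, q * (x + Bf p q * t) + c i = q * x + (q * (Bf p q * t) + c i) := by
          intro i; ring
        simp_rw [e1, e2]
        unfold cc
        rw [prod_mul_distrib, ← map_prod]
        have e3 : e (((p * (x + Bf p q * t) : ℕ) : ℝ) * θ) *
            (starRingEnd ℂ) (e (((q * (x + Bf p q * t) : ℕ) : ℝ) * θ)) =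
            e ((((p : ℝ) - q) * (Bf p q * t)) * θ) * e (x * (((p : ℝ) - q) * θ)) := by
          rw [conj_e, ← e_add, ← e_add]
          congr 1
          push_cast
          ring
        rw [show ∀ z : ℂ, star z = (starRingEnd ℂ) z from fun z => rfl, map_mul]
        calc _ = ((∏ i, f i (p * x + (p * (Bf p q * t) + c i))) *
              (starRingEnd ℂ) (∏ i, f i (q * x + (q * (Bf p q * t) + c i)))) *
              (e (((p * (x + Bf p q * t) : ℕ) : ℝ) * θ) *
            (starRingEnd ℂ) (e (((q * (x + Bf p q * t) : ℕ) : ℝ) * θ))) := by ring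
          _ = _ := by rw [e3]; ring
      rw [sum_congr rfl (fun x _ => h4 x), ← mul_sum, norm_mul, norm_e, one_mul]

theorem core (b k : ι → ℕ) (f : ι → ℕ → ℂ) (h : ∀ i, BD (b i) (k i) (f i))
    (hcop : ∀ i j, i ≠ j → (b i).Coprime (b j)) (Q : ℕ) (hQ : 0 < Q) (ε : ℝ) (hε : 0 < ε) :
    ∃ N₀ : ℕ, ∀ N, N₀ ≤ N → ∀ (c : ι → ℕ) (θ : ℝ) (P : ℕ → ℂ), (∀ n, P (n + Q) = P n) →
      (∀ n, ‖P n‖ ≤ 1) →
      ‖∑ n ∈ Ioc 0 N, mob n * (∏ i, f i (n + c i)) * P n * e (n * θ)‖ ≤ ε * N := by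
  have hQR : (0 : ℝ) < Q := by exact_mod_cast hQ
  suffices hs : ∀ ε : ℝ, 0 < ε → ∃ N₀ : ℕ, ∀ N, N₀ ≤ N → ∀ (c : ι → ℕ) (θ : ℝ),
      ‖∑ n ∈ Ioc 0 N, mob n * (∏ i, f i (n + c i)) * e (n * θ)‖ ≤ ε * N by
    obtain ⟨N₀, h0⟩ := hs (ε / Q) (by positivity)
    refine ⟨N₀, fun N hN c θ P hP hP1 => ?_⟩
    have := per_mul (fun n => mob n * (∏ i, f i (n + c i))) N Q hQ _ (h0 N hN c) P hP hP1 θ
    refine this.trans (le_of_eq ?_)
    field_simp
  clear ε hε
  intro ε hε
  by_cases hd : ∀ i, Deg (b i) (k i) (f i)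
  · -- the degenerate case
    choose α g hg1 hg2 hg3 using fun i => deg_form (h i).two (h i).norm (hd i)
    set R : ℕ := ∏ i, b i ^ (k i - 1) with hR
    have hRpos : 0 < R := prod_pos fun i _ => by have := (h i).two; positivity
    have hRR : (0 : ℝ) < R := by exact_mod_cast hRpos
    obtain ⟨N₀, h0⟩ := dav_e (ε / R) (by positivity)
    refine ⟨N₀, fun N hN c θ => ?_⟩
    have hper : ∀ i n, g i (n + R) = g i n := by
      intro i n
      obtain ⟨m, hm⟩ : b i ^ (k i - 1) ∣ R := dvd_prod_of_mem _ (mem_univ i)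
      rw [hm]
      clear hm
      induction m generalizing n with
      | zero => simp
      | succ m ih => rw [show n + b i ^ (k i - 1) * (m + 1) =
          (n + b i ^ (k i - 1) * m) + b i ^ (k i - 1) by ring, hg2, ih]
    have h1 := per_mul mob N R hRpos _ (h0 N hN) (fun n => ∏ i, g i (n + c i))
      (fun n => prod_congr rfl fun i _ => by
        rw [show n + R + c i = (n + c i) + R by ring, hper])
      (fun n => by
        rw [norm_prod]
        exact prod_le_one (fun i _ => norm_nonneg _) (fun i _ => hg1 i _)) (θ + ∑ i, α i)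
    have e1 : ∑ n ∈ Ioc 0 N, mob n * (∏ i, f i (n + c i)) * e (n * θ) =
        e (∑ i, c i * α i) * ∑ n ∈ Ioc 0 N, mob n * (∏ i, g i (n + c i)) *
          e (n * (θ + ∑ i, α i)) := by
      rw [mul_sum]
      refine sum_congr rfl fun n _ => ?_
      simp_rw [hg3]
      rw [prod_mul_distrib]
      have e2 : ∀ s : Finset ι, ∏ i ∈ s, e (((n + c i : ℕ) : ℝ) * α i) =
          e (n * ∑ i ∈ s, α i) * e (∑ i ∈ s, c i * α i) := by
        intro s
        induction s using Finset.induction_on with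
        | empty => simp [e_zero]
        | insert a s ha ih =>
          rw [prod_insert ha, ih, sum_insert ha, sum_insert ha, mul_add, e_add, e_add]
          have : e (((n + c a : ℕ) : ℝ) * α a) = e (n * α a) * e (c a * α a) := by
            rw [← e_add]
            congr 1
            push_cast
            ring
          rw [this]
          ring
      rw [e2, mul_add, e_add]
      ring
    rw [e1, norm_mul, norm_e, one_mul]
    refine h1.trans (le_of_eq ?_)
    field_simp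
  · push Not at hd
    obtain ⟨i₀, hi⟩ := hd
    exact core_nd b k f h hcop i₀ hi ε hε

end Pool.Agent.U602.MS
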