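import Pool.Agent.U602.MB.Corr

set_option autoImplicit false

/-! Block-digital functions: `f n = f (n / b) * w (n % b ^ k)` with values of modulus one. -/

namespace Pool.Agent.U602.MS

open Finset
open Pool.Agent.H469R2.NK (e norm_e e_add e_zero conj_e)
open Pool.Agent.TH915.PW (e_int sum_char e_sub sum_blocks)

/-- block-digital functions of modulus one -/
structure BD (b k : ℕ) (f : ℕ → ℂ) : Prop where
  two : 2 ≤ b
  one : 1 ≤ k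
  norm : ∀ n, ‖f n‖ = 1
  dig : ∃ w : ℕ → ℂ, ∀ n, f n = f (n / b) * w (n % b ^ k)

/-- the local factor -/
noncomputable def WW (b k : ℕ) (w : ℕ → ℂ) (K n : ℕ) : ℂ := ∏ i ∈ range K, w ((n / b ^ i) % b ^ k)

section

variable {b k : ℕ} {w f : ℕ → ℂ}

lemma f_split (hb : 2 ≤ b) (hf : ∀ n, f n = f (n / b) * w (n % b ^ k)) (K : ℕ) :
    ∀ n, f n = f (n / b ^ K) * WW b k w K n := by
  induction K with
  | zero => intro n; simp [WW]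
  | succ K ih =>
    intro n
    have h1 := hf (n / b ^ K)
    rw [Nat.div_div_eq_div_mul, ← pow_succ] at h1
    rw [ih n, h1]
    unfold WW
    rw [prod_range_succ]
    ring

lemma w_ne (hf1 : ∀ n, ‖f n‖ = 1) (hf : ∀ n, f n = f (n / b) * w (n % b ^ k)) (n : ℕ) :
    ‖w (n % b ^ k)‖ = 1 := by
  have h1 := hf1 n
  rw [hf n, norm_mul, hf1, one_mul] at h1
  exact h1

lemma norm_WW (hf1 : ∀ n, ‖f n‖ = 1) (hf : ∀ n, f n = f (n / b) * w (n % b ^ k)) (K n : ℕ) :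
    ‖WW b k w K n‖ = 1 := by
  unfold WW
  rw [norm_prod]
  exact prod_eq_one fun i _ => w_ne hf1 hf _

/-- adding multiples of `b^(K+k-1)` does not change the local factor -/
lemma WW_add (hb : 2 ≤ b) (hk : 1 ≤ k) (K n m : ℕ) :
    WW b k w K (b ^ (K + (k - 1)) * m + n) = WW b k w K n := by
  unfold WW
  refine prod_congr rfl fun i hi => ?_
  rw [mem_range] at hi
  congr 1
  have h1 : b ^ (K + (k - 1)) * m + n = b ^ i * (b ^ k * (b ^ (K - 1 - i) * m)) + n := by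
    have : K + (k - 1) = i + (k + (K - 1 - i)) := by omega
    rw [this, pow_add, pow_add]
    ring
  rw [h1, Nat.mul_add_div (by positivity), Nat.mul_add_mod]

lemma WW_mod (hb : 2 ≤ b) (hk : 1 ≤ k) (K n : ℕ) :
    WW b k w K (n % b ^ (K + (k - 1))) = WW b k w K n := by
  conv_rhs => rw [← Nat.div_add_mod n (b ^ (K + (k - 1)))]
  rw [WW_add hb hk]

/-- the basic identity -/
lemma f_star (hb : 2 ≤ b) (hk : 1 ≤ k) (hf : ∀ n, f n = f (n / b) * w (n % b ^ k)) (K p m N : ℕ) :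
    f (b ^ K * (b ^ (k - 1) * p * m) + N) = f (b ^ (k - 1) * p * m + N / b ^ K) * WW b k w K N := by
  rw [f_split hb hf K (b ^ K * (b ^ (k - 1) * p * m) + N), Nat.mul_add_div (by positivity)]
  congr 1
  have h1 : b ^ K * (b ^ (k - 1) * p * m) + N = b ^ (K + (k - 1)) * (p * m) + N := by
    rw [pow_add]; ring
  rw [h1, WW_add hb hk]

/-- increments -/
noncomputable def DD (f : ℕ → ℂ) (n : ℕ) : ℂ := f (n + 1) * (starRingEnd ℂ) (f n)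

lemma DD_local (hb : 2 ≤ b) (hk : 1 ≤ k) (hf1 : ∀ n, ‖f n‖ = 1)
    (hf : ∀ n, f n = f (n / b) * w (n % b ^ k)) (M n n₁ : ℕ) (hn₁ : n₁ + 1 < b ^ M)
    (hn : n % b ^ (M + (k - 1)) = n₁) : DD f n = DD f n₁ := by
  set y := n / b ^ (M + (k - 1)) with hy
  have h1 : n = b ^ M * (b ^ (k - 1) * 1 * y) + n₁ := by
    have := Nat.div_add_mod n (b ^ (M + (k - 1)))
    rw [hn, ← hy] at this
    rw [← this, pow_add]
    ring
  have key : ∀ y : ℕ, DD f (b ^ M * (b ^ (k - 1) * 1 * y) + n₁) =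
      WW b k w M (n₁ + 1) * (starRingEnd ℂ) (WW b k w M n₁) := by
    intro y
    unfold DD
    rw [add_assoc, f_star hb hk hf, f_star hb hk hf, Nat.div_eq_of_lt hn₁,
      Nat.div_eq_of_lt (by omega : n₁ < b ^ M), map_mul]
    have h3 : f (b ^ (k - 1) * 1 * y + 0) * (starRingEnd ℂ) (f (b ^ (k - 1) * 1 * y + 0)) = 1 := by
      rw [Complex.mul_conj', hf1]
      norm_num
    calc f (b ^ (k - 1) * 1 * y + 0) * WW b k w M (n₁ + 1) *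
          ((starRingEnd ℂ) (f (b ^ (k - 1) * 1 * y + 0)) * (starRingEnd ℂ) (WW b k w M n₁))
        = (f (b ^ (k - 1) * 1 * y + 0) * (starRingEnd ℂ) (f (b ^ (k - 1) * 1 * y + 0))) *
          (WW b k w M (n₁ + 1) * (starRingEnd ℂ) (WW b k w M n₁)) := by ring
      _ = _ := by rw [h3, one_mul]
  have h2 := key 0
  rw [mul_zero, mul_zero, zero_add] at h2
  rw [h1, key y, ← h2]

end

/-- `f` is degenerate: its increments have period `b^(k-1)` -/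
def Deg (b k : ℕ) (f : ℕ → ℂ) : Prop :=
  ∀ n₁ n₂ : ℕ, n₁ % b ^ (k - 1) = n₂ % b ^ (k - 1) → DD f n₁ = DD f n₂

/-! ### four unimodular numbers -/

lemma four_sq (z₁ z₂ z₃ z₄ : ℂ) (h₁ : ‖z₁‖ = 1) (h₂ : ‖z₂‖ = 1) (h₃ : ‖z₃‖ = 1) (h₄ : ‖z₄‖ = 1) :
    ‖z₁ + z₂ + z₃ + z₄‖ ^ 2 + ‖z₁ - z₂‖ ^ 2 + ‖z₃ - z₄‖ ^ 2 ≤ 16 := by
  have hs : ∀ z : ℂ, ‖z‖ ^ 2 = z.re ^ 2 + z.im ^ 2 := by
    intro z
    rw [← Complex.normSq_eq_norm_sq, Complex.normSq_apply]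
    ring
  have e1 := hs z₁
  have e2 := hs z₂
  have e3 := hs z₃
  have e4 := hs z₄
  rw [h₁] at e1
  rw [h₂] at e2
  rw [h₃] at e3
  rw [h₄] at e4
  rw [hs, hs, hs]
  simp only [Complex.add_re, Complex.add_im, Complex.sub_re, Complex.sub_im]
  nlinarith [sq_nonneg (z₁.re - z₃.re), sq_nonneg (z₁.im - z₃.im), sq_nonneg (z₁.re - z₄.re),
    sq_nonneg (z₁.im - z₄.im), sq_nonneg (z₂.re - z₃.re), sq_nonneg (z₂.im - z₃.im),
    sq_nonneg (z₂.re - z₄.re), sq_nonneg (z₂.im - z₄.im)]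

lemma four_bound (z₁ z₃ C D₁ D₂ : ℂ) (h₁ : ‖z₁‖ = 1) (h₃ : ‖z₃‖ = 1) (hC : ‖C‖ = 1)
    (hD₁ : ‖D₁‖ = 1) (hD₂ : ‖D₂‖ = 1) :
    ‖z₁ + z₁ * (C * D₁) + z₃ + z₃ * (C * D₂)‖ ≤ 4 - ‖D₁ - D₂‖ ^ 2 / 16 := by
  set S := ‖z₁ + z₁ * (C * D₁) + z₃ + z₃ * (C * D₂)‖ with hS
  have h := four_sq z₁ (z₁ * (C * D₁)) z₃ (z₃ * (C * D₂)) h₁
    (by rw [norm_mul, norm_mul, h₁, hC, hD₁]; norm_num) h₃
    (by rw [norm_mul, norm_mul, h₃, hC, hD₂]; norm_num)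
  rw [← hS] at h
  have e1 : ‖z₁ - z₁ * (C * D₁)‖ = ‖1 - C * D₁‖ := by
    rw [show z₁ - z₁ * (C * D₁) = z₁ * (1 - C * D₁) by ring, norm_mul, h₁, one_mul]
  have e2 : ‖z₃ - z₃ * (C * D₂)‖ = ‖1 - C * D₂‖ := by
    rw [show z₃ - z₃ * (C * D₂) = z₃ * (1 - C * D₂) by ring, norm_mul, h₃, one_mul]
  rw [e1, e2] at h
  have e3 : ‖D₁ - D₂‖ ≤ ‖1 - C * D₁‖ + ‖1 - C * D₂‖ := by
    have : ‖D₁ - D₂‖ = ‖(1 - C * D₂) - (1 - C * D₁)‖ := by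
      rw [show (1 - C * D₂) - (1 - C * D₁) = C * (D₁ - D₂) by ring, norm_mul, hC, one_mul]
    rw [this]
    refine (norm_sub_le _ _).trans ?_
    linarith
  have hd0 : 0 ≤ ‖D₁ - D₂‖ := norm_nonneg _
  have hd2 : ‖D₁ - D₂‖ ≤ 2 := by
    refine (norm_sub_le _ _).trans ?_
    rw [hD₁, hD₂]; norm_num
  have e4 : ‖D₁ - D₂‖ ^ 2 ≤ 2 * (‖1 - C * D₁‖ ^ 2 + ‖1 - C * D₂‖ ^ 2) := by
    nlinarith [sq_nonneg (‖1 - C * D₁‖ - ‖1 - C * D₂‖), norm_nonneg (1 - C * D₁),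
      norm_nonneg (1 - C * D₂)]
  have e5 : S ^ 2 ≤ 16 - ‖D₁ - D₂‖ ^ 2 / 2 := by linarith
  have hS0 : 0 ≤ S := norm_nonneg _
  by_contra hcon
  push Not at hcon
  have h6 : 0 ≤ 4 - ‖D₁ - D₂‖ ^ 2 / 16 := by nlinarith
  nlinarith [sq_nonneg (‖D₁ - D₂‖ ^ 2)]

end Pool.Agent.U602.MS
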