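import Pool.Agent.U602.MS.Single
import Pool.Agent.U602.MB.Vdc

set_option autoImplicit false
set_option linter.unusedSectionVars false

/-! Bilinear sums of products of block-digital functions to coprime bases. -/

namespace Pool.Agent.U602.MS

open Finset
open Pool.Agent.H469R2.NK (e norm_e e_add e_zero conj_e vdcH)
open Pool.Agent.TH915.PW (e_int sum_char e_sub sum_blocks)
open Pool.Agent.U602.MB (corr sum_perm crt_sum prod_diff_le)

/-- correlations over a long interval from short exponential sums -/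
lemma corr_blocks (c : ℕ → ℂ) (hc : ∀ n, ‖c n‖ ≤ 1) (B T : ℕ) (hB : 0 < B) (E : ℝ)
    (hE : ∀ (y : ℕ) (θ : ℝ), ‖∑ x ∈ range B, c (B * y + x) * e (x * θ)‖ ≤ E) :
    ∑ l ∈ range B, ‖∑ x ∈ range (B * T), c (x + l) * (starRingEnd ℂ) (c x)‖ ≤ 2 * B * T * E := by
  have hE0 : 0 ≤ E := (norm_nonneg _).trans (hE 0 0)
  have h1 : ∀ l ∈ range B, ‖∑ x ∈ range (B * T), c (x + l) * (starRingEnd ℂ) (c x)‖ ≤
      ∑ y ∈ range T, ‖∑ x ∈ range B, c (B * y + (x + l)) * (starRingEnd ℂ) (c (B * y + x))‖ := by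
    intro l _
    rw [sum_blocks]
    refine (norm_sum_le _ _).trans (sum_le_sum fun y _ => ?_)
    apply le_of_eq
    congr 1
    exact sum_congr rfl fun x _ => by rw [add_assoc]
  refine (sum_le_sum h1).trans ?_
  rw [sum_comm]
  have h2 : ∀ y ∈ range T, ∑ l ∈ range B,
      ‖∑ x ∈ range B, c (B * y + (x + l)) * (starRingEnd ℂ) (c (B * y + x))‖ ≤ 2 * B * E := by
    intro y _
    have h3 := corr (fun n => c (B * y + n)) (fun n => hc _) B hB E (fun θ => hE y θ)
    have h4 : (∑ l ∈ range B,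
        ‖∑ x ∈ range B, c (B * y + (x + l)) * (starRingEnd ℂ) (c (B * y + x))‖) ^ 2 ≤
        (2 * B * E) ^ 2 := by
      refine (sq_sum_le_card_mul_sum_sq).trans ?_
      rw [card_range]
      calc (B : ℝ) * ∑ l ∈ range B,
            ‖∑ x ∈ range B, c (B * y + (x + l)) * (starRingEnd ℂ) (c (B * y + x))‖ ^ 2
          ≤ B * (2 * B * E ^ 2) := mul_le_mul_of_nonneg_left h3 (Nat.cast_nonneg _)
        _ ≤ _ := by nlinarith [sq_nonneg ((B : ℝ) * E)]
    exact (pow_le_pow_iff_left₀ (sum_nonneg fun l _ => norm_nonneg _) (by positivity)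
      two_ne_zero).1 h4
  refine (sum_le_card_nsmul _ _ _ h2).trans ?_
  rw [card_range, nsmul_eq_mul]
  apply le_of_eq
  ring

section

variable {b k : ℕ} {w f : ℕ → ℂ}

lemma no_carry_f (hb : 2 ≤ b) (hf1 : ∀ n, ‖f n‖ = 1)
    (hf : ∀ n, f n = f (n / b) * w (n % b ^ k)) (M n l : ℕ) (hl : n % b ^ M + l < b ^ M) :
    f (n + l) * (starRingEnd ℂ) (f n) =
      WW b k w M (n + l) * (starRingEnd ℂ) (WW b k w M n) := by
  have hB : 0 < b ^ M := by positivity
  have h1 : (n + l) / b ^ M = n / b ^ M := by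
    have h3 : n + l = b ^ M * (n / b ^ M) + (n % b ^ M + l) := by
      rw [← add_assoc, Nat.div_add_mod]
    conv_lhs => rw [h3]
    rw [Nat.mul_add_div hB, Nat.div_eq_of_lt hl, add_zero]
  rw [f_split hb hf M (n + l), f_split hb hf M n, h1, map_mul]
  have h3 := uni1 (f (n / b ^ M)) (hf1 _)
  calc f (n / b ^ M) * WW b k w M (n + l) *
        ((starRingEnd ℂ) (f (n / b ^ M)) * (starRingEnd ℂ) (WW b k w M n))
      = (f (n / b ^ M) * (starRingEnd ℂ) (f (n / b ^ M))) *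
        (WW b k w M (n + l) * (starRingEnd ℂ) (WW b k w M n)) := by ring
    _ = _ := by rw [h3, one_mul]

/-- the bilinear function -/
noncomputable def cc (f : ℕ → ℂ) (p q u v x : ℕ) : ℂ :=
  f (p * x + u) * (starRingEnd ℂ) (f (q * x + v))

/-- its increments without carries -/
noncomputable def GG (b k : ℕ) (w : ℕ → ℂ) (M p q u v l x : ℕ) : ℂ :=
  (WW b k w M (p * x + u + p * l) * (starRingEnd ℂ) (WW b k w M (p * x + u))) *
    (starRingEnd ℂ) (WW b k w M (q * x + v + q * l) * (starRingEnd ℂ) (WW b k w M (q * x + v)))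

lemma norm_cc (hf1 : ∀ n, ‖f n‖ = 1) (p q u v x : ℕ) : ‖cc f p q u v x‖ = 1 := by
  unfold cc
  rw [norm_mul, RCLike.norm_conj, hf1, hf1, one_mul]

lemma norm_GG (hf1 : ∀ n, ‖f n‖ = 1) (hf : ∀ n, f n = f (n / b) * w (n % b ^ k))
    (M p q u v l x : ℕ) : ‖GG b k w M p q u v l x‖ = 1 := by
  unfold GG
  simp only [norm_mul, RCLike.norm_conj, norm_WW hf1 hf]
  norm_num

lemma GG_per (hb : 2 ≤ b) (hk : 1 ≤ k) (M p q u v l x : ℕ) :
    GG b k w M p q u v l (x + b ^ (M + (k - 1))) = GG b k w M p q u v l x := by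
  unfold GG
  have e1 : p * (x + b ^ (M + (k - 1))) + u = b ^ (M + (k - 1)) * p + (p * x + u) := by ring
  have e2 : q * (x + b ^ (M + (k - 1))) + v = b ^ (M + (k - 1)) * q + (q * x + v) := by ring
  rw [e1, e2, add_assoc, add_assoc (b ^ (M + (k - 1)) * q), WW_add hb hk, WW_add hb hk,
    WW_add hb hk, WW_add hb hk]

lemma cc_eq (hb : 2 ≤ b) (hf1 : ∀ n, ‖f n‖ = 1)
    (hf : ∀ n, f n = f (n / b) * w (n % b ^ k)) (M p q u v l x : ℕ)
    (h1 : (p * x + u) % b ^ M + p * l < b ^ M) (h2 : (q * x + v) % b ^ M + q * l < b ^ M) :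
    cc f p q u v (x + l) * (starRingEnd ℂ) (cc f p q u v x) = GG b k w M p q u v l x := by
  unfold cc GG
  rw [← no_carry_f hb hf1 hf M _ _ h1, ← no_carry_f hb hf1 hf M _ _ h2]
  rw [show p * (x + l) + u = p * x + u + p * l by ring,
    show q * (x + l) + v = q * x + v + q * l by ring]
  simp only [map_mul, Complex.conj_conj]
  ring

/-- the number of carries along a progression -/
lemma carry_ap (R p u l N : ℕ) (hp : p.Coprime R) :
    ((range (R * N)).filter (fun x => R ≤ (p * x + u) % R + l)).card ≤ N * l := by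
  have h0 : ∀ y, ((range R).filter (fun x => R ≤ (p * (R * y + x) + u) % R + l)).card ≤ l := by
    intro y
    have h1 := sum_perm p R hp u (fun n => if R ≤ n % R + l then (1 : ℂ) else 0) (fun n => by
      simp only [Nat.add_mod_right])
    have h2 : ((((range R).filter (fun x => R ≤ (p * (R * y + x) + u) % R + l)).card : ℕ) : ℂ) =
        (((range R).filter (fun x => R ≤ x % R + l)).card : ℕ) := by
      rw [← sum_boole, ← sum_boole, ← h1]
      refine sum_congr rfl fun x _ => ?_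
      have : (p * (R * y + x) + u) % R = (p * x + u) % R := by
        rw [show p * (R * y + x) + u = (p * x + u) + R * (p * y) by ring, Nat.add_mul_mod_self_left]
      rw [this]
    have h3 : ((range R).filter (fun x => R ≤ (p * (R * y + x) + u) % R + l)).card =
        ((range R).filter (fun x => R ≤ x % R + l)).card := by exact_mod_cast h2
    rw [h3]
    have h4 : (range R).filter (fun x => R ≤ x % R + l) ⊆ Ico (R - l) R := by
      intro x hx
      rw [mem_filter, mem_range] at hx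
      rw [mem_Ico]
      have := Nat.mod_eq_of_lt hx.1
      omega
    refine (card_le_card h4).trans ?_
    rw [Nat.card_Ico]
    omega
  have h1 : ((range (R * N)).filter (fun x => R ≤ (p * x + u) % R + l)).card =
      ∑ y ∈ range N, ((range R).filter (fun x => R ≤ (p * (R * y + x) + u) % R + l)).card := by
    rw [card_filter, sum_blocks]
    refine sum_congr rfl fun y _ => ?_
    rw [card_filter]
  rw [h1]
  refine (sum_le_card_nsmul _ _ _ fun y _ => h0 y).trans ?_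
  rw [card_range, smul_eq_mul]

/-- twice the number of carries -/
noncomputable def bd (R p q u v l x : ℕ) : ℝ :=
  (if R ≤ (p * x + u) % R + p * l then (2 : ℝ) else 0) +
    (if R ≤ (q * x + v) % R + q * l then (2 : ℝ) else 0)

lemma bd_nonneg (R p q u v l x : ℕ) : 0 ≤ bd R p q u v l x := by
  unfold bd
  positivity

lemma bad_sum (R p q u v l N : ℕ) (hp : p.Coprime R) (hq : q.Coprime R) :
    ∑ x ∈ range (R * N), bd R p q u v l x ≤ 2 * N * ((p + q) * l) := by
  unfold bd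
  rw [sum_add_distrib, ← sum_filter, ← sum_filter, sum_const, sum_const, nsmul_eq_mul,
    nsmul_eq_mul]
  have h1 := carry_ap R p u (p * l) N hp
  have h2 := carry_ap R q v (q * l) N hq
  have h1' : (((range (R * N)).filter (fun x => R ≤ (p * x + u) % R + p * l)).card : ℝ) ≤
      N * (p * l) := by exact_mod_cast h1
  have h2' : (((range (R * N)).filter (fun x => R ≤ (q * x + v) % R + q * l)).card : ℝ) ≤
      N * (q * l) := by exact_mod_cast h2
  linarith

end

section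

variable {ι : Type} [Fintype ι] [DecidableEq ι]

lemma shift_bound (b k : ι → ℕ) (w f : ι → ℕ → ℂ) (hb : ∀ i, 2 ≤ b i) (hk : ∀ i, 1 ≤ k i)
    (hf1 : ∀ i n, ‖f i n‖ = 1) (hf : ∀ i n, f i n = f i (n / b i) * w i (n % b i ^ k i))
    (hcop : ∀ i j, i ≠ j → (b i).Coprime (b j)) (i₀ : ι) (p q : ℕ) (hp : ∀ i, p.Coprime (b i))
    (hq : ∀ i, q.Coprime (b i)) (M : ι → ℕ) (u v : ι → ℕ) (l : ℕ) :
    ‖∑ x ∈ range (∏ i, b i ^ (M i + (k i - 1))), ∏ i, (cc (f i) p q (u i) (v i) (x + l) *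
        (starRingEnd ℂ) (cc (f i) p q (u i) (v i) x))‖ ≤
      ((∏ i ∈ univ.erase i₀, b i ^ (M i + (k i - 1)) : ℕ) : ℝ) *
        ‖∑ x ∈ range (b i₀ ^ (M i₀ + (k i₀ - 1))), cc (f i₀) p q (u i₀) (v i₀) (x + l) *
          (starRingEnd ℂ) (cc (f i₀) p q (u i₀) (v i₀) x)‖ +
      4 * ((∏ i, b i ^ (M i + (k i - 1)) : ℕ) : ℝ) * ((p + q) * l) *
        ∑ i, 1 / ((b i ^ M i : ℕ) : ℝ) := by
  set m : ι → ℕ := fun i => b i ^ (M i + (k i - 1)) with hm
  have hm0 : ∀ i, 0 < m i := fun i => by have := hb i; rw [hm]; positivity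
  set P' : ℕ := ∏ i ∈ univ.erase i₀, m i with hP'
  set N : ℕ := ∏ i, m i with hN
  have hNN : N = m i₀ * P' := (mul_prod_erase univ m (mem_univ i₀)).symm
  have hR0 : ∀ i, (0 : ℝ) < ((b i ^ M i : ℕ) : ℝ) := fun i => by
    have : 0 < b i ^ M i := by have := hb i; positivity
    exact_mod_cast this
  have hcp : ∀ i, p.Coprime (b i ^ M i) := fun i => (hp i).pow_right _
  have hcq : ∀ i, q.Coprime (b i ^ M i) := fun i => (hq i).pow_right _
  -- the number of carries below a multiple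
  have hbad : ∀ i (T : ℕ), (b i ^ M i) ∣ T → ∑ x ∈ range T, bd (b i ^ M i) p q (u i) (v i) l x ≤
      2 * (T : ℝ) * ((p + q) * l) * (1 / ((b i ^ M i : ℕ) : ℝ)) := by
    rintro i T ⟨T', rfl⟩
    refine (bad_sum _ p q (u i) (v i) l T' (hcp i) (hcq i)).trans ?_
    apply le_of_eq
    have := (hR0 i).ne'
    rw [Nat.cast_mul]
    field_simp
  -- the difference
  have hd : ∀ (x : ℕ), ‖∏ i, (cc (f i) p q (u i) (v i) (x + l) *
        (starRingEnd ℂ) (cc (f i) p q (u i) (v i) x)) -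
        ∏ i, GG (b i) (k i) (w i) (M i) p q (u i) (v i) l x‖ ≤
        ∑ i, bd (b i ^ M i) p q (u i) (v i) l x := by
    intro x
    by_cases hcar : ∃ i, b i ^ M i ≤ (p * x + u i) % b i ^ M i + p * l ∨
        b i ^ M i ≤ (q * x + v i) % b i ^ M i + q * l
    · obtain ⟨i, hi⟩ := hcar
      refine (prod_diff_le univ _ _ (fun i _ => ?_) (fun i _ => ?_)).trans ?_
      · rw [norm_mul, RCLike.norm_conj, norm_cc (hf1 i), norm_cc (hf1 i), one_mul]
      · exact (norm_GG (hf1 i) (hf i) _ _ _ _ _ _ _).le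
      · refine le_trans ?_ (single_le_sum (f := fun i => bd (b i ^ M i) p q (u i) (v i) l x)
          (fun i _ => bd_nonneg _ _ _ _ _ _ _) (mem_univ i))
        show 2 ≤ bd (b i ^ M i) p q (u i) (v i) l x
        unfold bd
        rcases hi with hi | hi
        · rw [if_pos hi]
          have : (0 : ℝ) ≤ (if b i ^ M i ≤ (q * x + v i) % b i ^ M i + q * l then (2 : ℝ) else 0) := by
            positivity
          linarith
        · rw [if_pos hi]
          have : (0 : ℝ) ≤ (if b i ^ M i ≤ (p * x + u i) % b i ^ M i + p * l then (2 : ℝ) else 0) := by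
            positivity
          linarith
    · push Not at hcar
      have : ∏ i, (cc (f i) p q (u i) (v i) (x + l) *
          (starRingEnd ℂ) (cc (f i) p q (u i) (v i) x)) =
          ∏ i, GG (b i) (k i) (w i) (M i) p q (u i) (v i) l x :=
        prod_congr rfl fun i _ => cc_eq (hb i) (hf1 i) (hf i) _ _ _ _ _ _ _ (hcar i).1 (hcar i).2
      rw [this, sub_self, norm_zero]
      exact sum_nonneg fun i _ => bd_nonneg _ _ _ _ _ _ _
  have h1 : ‖∑ x ∈ range N, ∏ i, (cc (f i) p q (u i) (v i) (x + l) *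
        (starRingEnd ℂ) (cc (f i) p q (u i) (v i) x)) -
      ∑ x ∈ range N, ∏ i, GG (b i) (k i) (w i) (M i) p q (u i) (v i) l x‖ ≤
      2 * (N : ℝ) * ((p + q) * l) * ∑ i, 1 / ((b i ^ M i : ℕ) : ℝ) := by
    rw [← sum_sub_distrib]
    refine (norm_sum_le _ _).trans ?_
    refine (sum_le_sum fun x _ => hd x).trans ?_
    rw [sum_comm, mul_sum]
    refine sum_le_sum fun i _ => hbad i N ?_
    refine Dvd.dvd.trans ?_ (dvd_prod_of_mem m (mem_univ i))
    rw [hm]
    exact pow_dvd_pow _ (by omega)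
  -- the product of the periodic functions
  have hF : ∀ i n, GG (b i) (k i) (w i) (M i) p q (u i) (v i) l (n + m i) =
      GG (b i) (k i) (w i) (M i) p q (u i) (v i) l n := fun i n => GG_per (hb i) (hk i) _ _ _ _ _ _ _
  have hFm : ∀ i t n, GG (b i) (k i) (w i) (M i) p q (u i) (v i) l (n + m i * t) =
      GG (b i) (k i) (w i) (M i) p q (u i) (v i) l n := by
    intro i t
    induction t with
    | zero => intro n; simp
    | succ t ih => intro n; rw [Nat.mul_succ, ← add_assoc, hF, ih]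
  have hRper : ∀ n, ∏ i ∈ univ.erase i₀, GG (b i) (k i) (w i) (M i) p q (u i) (v i) l (n + P') =
      ∏ i ∈ univ.erase i₀, GG (b i) (k i) (w i) (M i) p q (u i) (v i) l n := by
    intro n
    refine prod_congr rfl fun i hi => ?_
    obtain ⟨t, ht⟩ : m i ∣ P' := dvd_prod_of_mem m hi
    rw [ht, hFm]
  have hcop' : (m i₀).Coprime P' := by
    rw [hP']
    apply Nat.Coprime.prod_right
    intro i hi
    rw [hm]
    exact ((hcop i₀ i (ne_of_mem_erase hi).symm).pow_left _).pow_right _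
  have h2 : ∑ x ∈ range N, ∏ i, GG (b i) (k i) (w i) (M i) p q (u i) (v i) l x =
      (∑ x ∈ range (m i₀), GG (b i₀) (k i₀) (w i₀) (M i₀) p q (u i₀) (v i₀) l x) *
      ∑ x ∈ range P', ∏ i ∈ univ.erase i₀, GG (b i) (k i) (w i) (M i) p q (u i) (v i) l x := by
    rw [hNN, ← crt_sum _ _ hcop' _ _ (hF i₀) hRper]
    refine sum_congr rfl fun x _ => ?_
    exact (mul_prod_erase univ _ (mem_univ i₀)).symm
  have h3 : ‖∑ x ∈ range P', ∏ i ∈ univ.erase i₀, GG (b i) (k i) (w i) (M i) p q (u i) (v i) l x‖ ≤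
      P' := by
    refine (norm_sum_le _ _).trans ?_
    refine (sum_le_card_nsmul _ _ 1 fun x _ => ?_).trans ?_
    · rw [norm_prod]
      exact prod_le_one (fun i _ => norm_nonneg _)
        (fun i _ => (norm_GG (hf1 i) (hf i) _ _ _ _ _ _ _).le)
    · rw [card_range, nsmul_eq_mul, mul_one]
  have h4 : ‖∑ x ∈ range (m i₀), cc (f i₀) p q (u i₀) (v i₀) (x + l) *
          (starRingEnd ℂ) (cc (f i₀) p q (u i₀) (v i₀) x) -
      ∑ x ∈ range (m i₀), GG (b i₀) (k i₀) (w i₀) (M i₀) p q (u i₀) (v i₀) l x‖ ≤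
      2 * (m i₀ : ℝ) * ((p + q) * l) * (1 / ((b i₀ ^ M i₀ : ℕ) : ℝ)) := by
    rw [← sum_sub_distrib]
    refine (norm_sum_le _ _).trans ?_
    refine le_trans (sum_le_sum fun x _ => ?_) (hbad i₀ (m i₀) (by
      rw [hm]; exact pow_dvd_pow _ (by omega)))
    by_cases hcar : b i₀ ^ M i₀ ≤ (p * x + u i₀) % b i₀ ^ M i₀ + p * l ∨
        b i₀ ^ M i₀ ≤ (q * x + v i₀) % b i₀ ^ M i₀ + q * l
    · have e1 : ‖cc (f i₀) p q (u i₀) (v i₀) (x + l) *
          (starRingEnd ℂ) (cc (f i₀) p q (u i₀) (v i₀) x) -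
          GG (b i₀) (k i₀) (w i₀) (M i₀) p q (u i₀) (v i₀) l x‖ ≤ 2 := by
        refine (norm_sub_le _ _).trans ?_
        rw [norm_mul, RCLike.norm_conj, norm_cc (hf1 i₀), norm_cc (hf1 i₀),
          norm_GG (hf1 i₀) (hf i₀)]
        norm_num
      refine e1.trans ?_
      unfold bd
      rcases hcar with hi | hi
      · rw [if_pos hi]
        have : (0 : ℝ) ≤ (if b i₀ ^ M i₀ ≤ (q * x + v i₀) % b i₀ ^ M i₀ + q * l
          then (2 : ℝ) else 0) := by positivity
        linarith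
      · rw [if_pos hi]
        have : (0 : ℝ) ≤ (if b i₀ ^ M i₀ ≤ (p * x + u i₀) % b i₀ ^ M i₀ + p * l
          then (2 : ℝ) else 0) := by positivity
        linarith
    · push Not at hcar
      rw [cc_eq (hb i₀) (hf1 i₀) (hf i₀) _ _ _ _ _ _ _ hcar.1 hcar.2, sub_self, norm_zero]
      exact bd_nonneg _ _ _ _ _ _ _
  -- conclusion
  set C := ‖∑ x ∈ range (m i₀), cc (f i₀) p q (u i₀) (v i₀) (x + l) *
          (starRingEnd ℂ) (cc (f i₀) p q (u i₀) (v i₀) x)‖ with hC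
  set S1 := ∑ x ∈ range N, ∏ i, (cc (f i) p q (u i) (v i) (x + l) *
        (starRingEnd ℂ) (cc (f i) p q (u i) (v i) x)) with hS1
  have h5 : ‖∑ x ∈ range (m i₀), GG (b i₀) (k i₀) (w i₀) (M i₀) p q (u i₀) (v i₀) l x‖ ≤
      C + 2 * (m i₀ : ℝ) * ((p + q) * l) * (1 / ((b i₀ ^ M i₀ : ℕ) : ℝ)) := by
    have := norm_sub_norm_le (∑ x ∈ range (m i₀), GG (b i₀) (k i₀) (w i₀) (M i₀) p q (u i₀) (v i₀) l x)
      (∑ x ∈ range (m i₀), cc (f i₀) p q (u i₀) (v i₀) (x + l) *
          (starRingEnd ℂ) (cc (f i₀) p q (u i₀) (v i₀) x))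
    rw [norm_sub_rev] at this
    linarith
  have h6 : ‖∑ x ∈ range N, ∏ i, GG (b i) (k i) (w i) (M i) p q (u i) (v i) l x‖ ≤
      (C + 2 * (m i₀ : ℝ) * ((p + q) * l) * (1 / ((b i₀ ^ M i₀ : ℕ) : ℝ))) * P' := by
    rw [h2, norm_mul]
    exact mul_le_mul h5 h3 (norm_nonneg _) ((norm_nonneg _).trans h5)
  have h7 : 1 / ((b i₀ ^ M i₀ : ℕ) : ℝ) ≤ ∑ i, 1 / ((b i ^ M i : ℕ) : ℝ) :=
    single_le_sum (f := fun i => 1 / ((b i ^ M i : ℕ) : ℝ)) (fun i _ => by positivity) (mem_univ i₀)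
  have h8 : ‖S1‖ ≤ ‖S1 - ∑ x ∈ range N, ∏ i, GG (b i) (k i) (w i) (M i) p q (u i) (v i) l x‖ +
      ‖∑ x ∈ range N, ∏ i, GG (b i) (k i) (w i) (M i) p q (u i) (v i) l x‖ := by
    have := norm_add_le (S1 - ∑ x ∈ range N, ∏ i, GG (b i) (k i) (w i) (M i) p q (u i) (v i) l x)
      (∑ x ∈ range N, ∏ i, GG (b i) (k i) (w i) (M i) p q (u i) (v i) l x)
    rwa [sub_add_cancel] at this
  have hNr : (N : ℝ) = m i₀ * P' := by rw [hNN]; push_cast; ring
  have h9 : 2 * (m i₀ : ℝ) * ((p + q) * l) * (1 / ((b i₀ ^ M i₀ : ℕ) : ℝ)) * P' ≤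
      2 * (N : ℝ) * ((p + q) * l) * ∑ i, 1 / ((b i ^ M i : ℕ) : ℝ) := by
    calc 2 * (m i₀ : ℝ) * ((p + q) * l) * (1 / ((b i₀ ^ M i₀ : ℕ) : ℝ)) * P'
        = 2 * (N : ℝ) * ((p + q) * l) * (1 / ((b i₀ ^ M i₀ : ℕ) : ℝ)) := by rw [hNr]; ring
      _ ≤ _ := by gcongr
  calc ‖S1‖ ≤ 2 * (N : ℝ) * ((p + q) * l) * ∑ i, 1 / ((b i ^ M i : ℕ) : ℝ) +
        (C + 2 * (m i₀ : ℝ) * ((p + q) * l) * (1 / ((b i₀ ^ M i₀ : ℕ) : ℝ))) * P' := by
        linarith
    _ ≤ _ := by
        have e : (C + 2 * (m i₀ : ℝ) * ((p + q) * l) * (1 / ((b i₀ ^ M i₀ : ℕ) : ℝ))) * P' =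
          P' * C + 2 * (m i₀ : ℝ) * ((p + q) * l) * (1 / ((b i₀ ^ M i₀ : ℕ) : ℝ)) * P' := by ring
        rw [e]
        linarith

end

end Pool.Agent.U602.MS
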