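import Pool.Agent.U602.MS.Dig

set_option autoImplicit false

/-! Elementary lemmas on the positions of carries. -/

namespace Pool.Agent.U602.MS

open Finset

lemma mono_step (h : ℕ → ℕ) (hm : Monotone h) (N : ℕ) (hN : h N < h 0 + N) :
    ∃ ω < N, h (ω + 1) = h ω := by
  by_contra hcon
  push Not at hcon
  have h1 : ∀ n ≤ N, h 0 + n ≤ h n := by
    intro n
    induction n with
    | zero => intro _; omega
    | succ n ih =>
      intro hn
      have h2 := ih (by omega)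
      have h3 := hcon n (by omega)
      have h4 : h n ≤ h (n + 1) := hm (by omega)
      omega
  have := h1 N le_rfl
  omega

lemma window (P Q R G u v : ℕ) (hR : 0 < R) (hG : P + Q < G) :
    ∃ ω < G, ∀ r, R * ω ≤ r → r ≤ R * (ω + 1) →
      (P * r + u) / (R * G) = (P * (R * ω) + u) / (R * G) ∧
      (Q * r + v) / (R * G) = (Q * (R * ω) + v) / (R * G) := by
  have hT : 0 < R * G := Nat.mul_pos hR (by omega)
  obtain ⟨ω, hω, h⟩ := mono_step
    (fun ω => (P * (R * ω) + u) / (R * G) + (Q * (R * ω) + v) / (R * G)) (by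
      intro x y hxy
      show (P * (R * x) + u) / (R * G) + (Q * (R * x) + v) / (R * G) ≤
        (P * (R * y) + u) / (R * G) + (Q * (R * y) + v) / (R * G)
      gcongr) G (by
      have e1 : (P * (R * G) + u) / (R * G) = P + u / (R * G) := by
        rw [add_comm, Nat.add_mul_div_right _ _ hT, add_comm]
      have e2 : (Q * (R * G) + v) / (R * G) = Q + v / (R * G) := by
        rw [add_comm, Nat.add_mul_div_right _ _ hT, add_comm]
      show (P * (R * G) + u) / (R * G) + (Q * (R * G) + v) / (R * G) <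
        (P * (R * 0) + u) / (R * G) + (Q * (R * 0) + v) / (R * G) + G
      rw [e1, e2]
      simp only [mul_zero, zero_add]
      omega)
  refine ⟨ω, hω, fun r h1 h2 => ?_⟩
  have a1 : (P * (R * ω) + u) / (R * G) ≤ (P * r + u) / (R * G) := by gcongr
  have a2 : (P * r + u) / (R * G) ≤ (P * (R * (ω + 1)) + u) / (R * G) := by gcongr
  have a3 : (Q * (R * ω) + v) / (R * G) ≤ (Q * r + v) / (R * G) := by gcongr
  have a4 : (Q * r + v) / (R * G) ≤ (Q * (R * (ω + 1)) + v) / (R * G) := by gcongr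
  omega

lemma jump (P T u s : ℕ) (hP : 0 < P) (hs : u < s * T) :
    P * ((s * T - u - 1) / P) + u < s * T ∧ s * T ≤ P * ((s * T - u - 1) / P + 1) + u := by
  have h1 := Nat.div_add_mod (s * T - u - 1) P
  have h2 := Nat.mod_lt (s * T - u - 1) hP
  constructor
  · omega
  · rw [mul_add, mul_one]
    omega

lemma crossing (β p q T : ℕ) (hβ : 0 < β) (hp3 : 3 ≤ p) (hq : 0 < q) (hpq : ¬ p ∣ β * q)
    (hT : 2 * (β * p) * (β * q) ≤ T) (u v ρ : ℕ) :
    ∃ r a : ℕ, r + 1 < T ∧ a % β = ρ % β ∧ (β * p * r + u) / T = a ∧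
      (β * p * (r + 1) + u) / T = a + 1 ∧
      (β * q * (r + 1) + v) / T = (β * q * r + v) / T := by
  have hP : 0 < β * p := Nat.mul_pos hβ (by omega)
  have hQ : 0 < β * q := Nat.mul_pos hβ hq
  have hPT : 2 * (β * p) ≤ T := by nlinarith
  have hT0 : 0 < T := by omega
  have hT3 : 3 ≤ T := by nlinarith
  set c := u / T with hc
  have hcu := Nat.div_add_mod u T
  have hcu' := Nat.mod_lt u hT0
  rw [← hc] at hcu
  obtain ⟨a₀, h1, h2, h3⟩ : ∃ a₀, c ≤ a₀ ∧ a₀ < c + β ∧ a₀ % β = ρ % β := by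
    refine ⟨c + (ρ + (β - 1) * c) % β, Nat.le_add_right _ _, ?_, ?_⟩
    · have := Nat.mod_lt (ρ + (β - 1) * c) hβ
      omega
    · rw [Nat.add_mod_mod]
      have : c + (ρ + (β - 1) * c) = ρ + β * c := by
        obtain ⟨γ, rfl⟩ : ∃ γ, β = γ + 1 := ⟨β - 1, by omega⟩
        rw [Nat.add_sub_cancel]
        ring
      rw [this, Nat.add_mul_mod_self_left]
  -- facts for both candidates
  have fact : ∀ a, c ≤ a → a + 1 ≤ c + 2 * β → ∃ r, r + 1 < T ∧ (β * p) * r + u < (a + 1) * T ∧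
      (a + 1) * T ≤ (β * p) * (r + 1) + u := by
    intro a ha ha2
    have hs : u < (a + 1) * T := by
      calc u < T * c + T := by omega
        _ ≤ T * a + T := by gcongr
        _ = (a + 1) * T := by ring
    obtain ⟨j1, j2⟩ := jump (β * p) T u (a + 1) hP hs
    refine ⟨((a + 1) * T - u - 1) / (β * p), ?_, j1, j2⟩
    set r := ((a + 1) * T - u - 1) / (β * p)
    have h5 : β * p * r < 2 * β * T := by
      have : (a + 1) * T ≤ (c + 2 * β) * T := Nat.mul_le_mul_right _ ha2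
      have e : (c + 2 * β) * T = T * c + 2 * β * T := by ring
      omega
    have h6 : p * r < 2 * T := by
      have : β * (p * r) < β * (2 * T) := by
        calc β * (p * r) = β * p * r := by ring
          _ < 2 * β * T := h5
          _ = _ := by ring
      exact lt_of_mul_lt_mul_left this (Nat.zero_le _)
    have h7 : 3 * r ≤ p * r := Nat.mul_le_mul_right _ hp3
    omega
  have fin : ∀ a r, (β * p) * r + u < (a + 1) * T → (a + 1) * T ≤ (β * p) * (r + 1) + u →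
      (β * p * r + u) / T = a ∧ (β * p * (r + 1) + u) / T = a + 1 := by
    intro a r g1 g2
    constructor
    · apply Nat.div_eq_of_lt_le
      · have e : (a + 1) * T = a * T + T := by ring
        have e2 : (β * p) * (r + 1) = β * p * r + β * p := by ring
        omega
      · exact g1
    · apply Nat.div_eq_of_lt_le
      · exact g2
      · have e : (a + 1 + 1) * T = (a + 1) * T + T := by ring
        have e2 : (β * p) * (r + 1) = β * p * r + β * p := by ring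
        omega
  obtain ⟨r₀, x1, x2, x3⟩ := fact a₀ h1 (by omega)
  obtain ⟨r₁, y1, y2, y3⟩ := fact (a₀ + β) (by omega) (by omega)
  by_cases hA : (β * q * (r₀ + 1) + v) / T = (β * q * r₀ + v) / T
  · obtain ⟨z1, z2⟩ := fin a₀ r₀ x2 x3
    exact ⟨r₀, a₀, x1, h3, z1, z2, hA⟩
  by_cases hB : (β * q * (r₁ + 1) + v) / T = (β * q * r₁ + v) / T
  · obtain ⟨z1, z2⟩ := fin (a₀ + β) r₁ y2 y3
    exact ⟨r₁, a₀ + β, y1, by rw [Nat.add_mod_right]; exact h3, z1, z2, hB⟩
  exfalso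
  have jq : ∀ r, (β * q * (r + 1) + v) / T ≠ (β * q * r + v) / T →
      ∃ g : ℕ, β * q * r + v < g * T ∧ g * T ≤ β * q * (r + 1) + v := by
    intro r hr
    refine ⟨(β * q * (r + 1) + v) / T, ?_, Nat.div_mul_le_self _ _⟩
    have hle : (β * q * r + v) / T ≤ (β * q * (r + 1) + v) / T := by gcongr; omega
    have hlt : (β * q * r + v) / T < (β * q * (r + 1) + v) / T := lt_of_le_of_ne hle (Ne.symm hr)
    exact (Nat.div_lt_iff_lt_mul hT0).1 hlt
  obtain ⟨g₀, g1, g2⟩ := jq r₀ hA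
  obtain ⟨g₁, g3, g4⟩ := jq r₁ hB
  zify at x2 x3 y2 y3 g1 g2 g3 g4 hT hP hQ hβ hT0
  set PP : ℤ := (β : ℤ) * p with hPP
  set QQ : ℤ := (β : ℤ) * q with hQQ
  set X : ℤ := (r₁ : ℤ) - r₀ with hX
  set Gd : ℤ := (g₁ : ℤ) - g₀ with hGd
  have k1 : PP * (X - 1) < β * T := by rw [hX]; linarith
  have k2 : β * T < PP * (X + 1) := by rw [hX]; linarith
  have k3 : QQ * (X - 1) < Gd * T := by rw [hX, hGd]; linarith
  have k4 : Gd * T < QQ * (X + 1) := by rw [hX, hGd]; linarith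
  have m1 : QQ * (β * T) < QQ * (PP * (X + 1)) := mul_lt_mul_of_pos_left k2 hQ
  have m2 : QQ * (PP * (X - 1)) < QQ * (β * T) := mul_lt_mul_of_pos_left k1 hQ
  have m3 : PP * (QQ * (X - 1)) < PP * (Gd * T) := mul_lt_mul_of_pos_left k3 hP
  have m4 : PP * (Gd * T) < PP * (QQ * (X + 1)) := mul_lt_mul_of_pos_left k4 hP
  have n1 : (QQ * β - PP * Gd) * T < 1 * T := by
    have : (QQ * β - PP * Gd) * T = QQ * (β * T) - PP * (Gd * T) := by ring
    rw [this]
    have e : QQ * (PP * (X + 1)) - PP * (QQ * (X - 1)) = 2 * PP * QQ := by ring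
    linarith
  have n2 : (PP * Gd - QQ * β) * T < 1 * T := by
    have : (PP * Gd - QQ * β) * T = PP * (Gd * T) - QQ * (β * T) := by ring
    rw [this]
    have e : PP * (QQ * (X + 1)) - QQ * (PP * (X - 1)) = 2 * PP * QQ := by ring
    linarith
  have o1 : QQ * β - PP * Gd < 1 := lt_of_mul_lt_mul_right n1 hT0.le
  have o2 : PP * Gd - QQ * β < 1 := lt_of_mul_lt_mul_right n2 hT0.le
  have o3 : QQ * β = PP * Gd := by omega
  apply hpq
  have o4 : (β : ℤ) * q = p * Gd := by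
    have : (β : ℤ) * (β * q) = β * (p * Gd) := by
      calc (β : ℤ) * (β * q) = QQ * β := by rw [hQQ]; ring
        _ = PP * Gd := o3
        _ = _ := by rw [hPP]; ring
    exact mul_left_cancel₀ hβ.ne' this
  have o5 : (p : ℤ) ∣ ((β * q : ℕ) : ℤ) := ⟨Gd, by push_cast; exact o4⟩
  exact_mod_cast o5

/-- solving a congruence -/
lemma cong (β p B a n : ℕ) (hB : 0 < B) (hβ : 0 < β) (hp : p.Coprime B)
    (h : a % β = n % β) : ∃ x < B, (β * p * x + a) % (B * β) = n % (B * β) := by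
  have h1 : (a : ℤ) ≡ n [ZMOD β] := by
    rw [Int.natCast_modEq_iff]
    exact h
  obtain ⟨c, hc⟩ := h1.dvd
  obtain ⟨y, hy⟩ := Int.mod_coprime hp
  obtain ⟨x, hx1, hx2⟩ := Int.existsUnique_equiv_nat (c * y) (b := (B : ℤ)) (by exact_mod_cast hB)
  refine ⟨x, by exact_mod_cast hx1, ?_⟩
  have h2 : (p : ℤ) * x ≡ c [ZMOD B] := by
    calc (p : ℤ) * x ≡ p * (c * y) [ZMOD B] := hx2.mul_left _
      _ = c * (p * y) := by ring
      _ ≡ c * 1 [ZMOD B] := hy.mul_left _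
      _ = c := by ring
  obtain ⟨d, hd⟩ := h2.dvd
  have h3 : ((β * p * x + a : ℕ) : ℤ) ≡ ((n : ℕ) : ℤ) [ZMOD ((B * β : ℕ) : ℤ)] := by
    apply Int.modEq_of_dvd
    refine ⟨d, ?_⟩
    push_cast
    have e1 : (n : ℤ) = a + β * c := by linarith
    have e2 : c = p * x + B * d := by linarith
    rw [e1, e2]
    ring
  exact (Int.natCast_modEq_iff.1 h3)

/-- the special points -/
lemma pts (b k p q M n₁ n₂ : ℕ) (hb : 2 ≤ b) (hp3 : 3 ≤ p) (hq : 0 < q)
    (hpb : p.Coprime b) (hpq : ¬ p ∣ b ^ (k - 1) * q)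
    (h12 : n₁ % b ^ (k - 1) = n₂ % b ^ (k - 1)) : ∃ J K : ℕ, J ≤ K ∧ ∀ u v : ℕ,
      ∃ r₀ r₁ r₂ a A A' : ℕ, r₀ + 1 < b ^ J ∧ b ^ J * (r₁ + 1) ≤ b ^ K ∧ b ^ J * (r₂ + 1) ≤ b ^ K ∧
        (b ^ (k - 1) * p * r₀ + u) / b ^ J = a ∧
        (b ^ (k - 1) * p * (r₀ + 1) + u) / b ^ J = a + 1 ∧
        (b ^ (k - 1) * q * (r₀ + 1) + v) / b ^ J = (b ^ (k - 1) * q * r₀ + v) / b ^ J ∧
        (b ^ (k - 1) * p * r₁ + a) % b ^ (M + (k - 1)) = n₁ % b ^ (M + (k - 1)) ∧
        (b ^ (k - 1) * p * r₂ + a) % b ^ (M + (k - 1)) = n₂ % b ^ (M + (k - 1)) ∧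
        ∀ i j : ℕ, (i = r₁ ∨ i = r₂) → (j = r₀ ∨ j = r₀ + 1) →
          (b ^ (k - 1) * p * (b ^ J * i + j) + u) / b ^ K = A ∧
          (b ^ (k - 1) * q * (b ^ J * i + j) + v) / b ^ K = A' := by
  set β := b ^ (k - 1) with hβ
  have hβ0 : 0 < β := by positivity
  obtain ⟨J, hJ⟩ : ∃ J : ℕ, 2 * (β * p) * (β * q) ≤ b ^ J :=
    ⟨2 * (β * p) * (β * q), (Nat.lt_pow_self (by omega)).le⟩
  obtain ⟨G, hG⟩ : ∃ G : ℕ, β * p + β * q < b ^ G := ⟨β * p + β * q, Nat.lt_pow_self (by omega)⟩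
  refine ⟨J, J + M + G, by omega, fun u v => ?_⟩
  obtain ⟨r₀, a, c1, c2, c3, c4, c5⟩ := crossing β p q (b ^ J) hβ0 hp3 hq hpq hJ u v n₁
  obtain ⟨x₁, d1, d2⟩ := cong β p (b ^ M) a n₁ (by positivity) hβ0 (hpb.pow_right M) c2
  obtain ⟨x₂, d3, d4⟩ := cong β p (b ^ M) a n₂ (by positivity) hβ0 (hpb.pow_right M)
    (c2.trans h12)
  obtain ⟨ω, w1, w2⟩ := window (β * p) (β * q) (b ^ J * b ^ M) (b ^ G) u v (by positivity) hG
  have hK : b ^ (J + M + G) = b ^ J * b ^ M * b ^ G := by rw [pow_add, pow_add]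
  have hMβ : b ^ (M + (k - 1)) = b ^ M * β := by rw [pow_add]
  have hle : ∀ x, x < b ^ M → b ^ J * (b ^ M * ω + x + 1) ≤ b ^ (J + M + G) := by
    intro x hx
    rw [hK]
    calc b ^ J * (b ^ M * ω + x + 1) ≤ b ^ J * (b ^ M * ω + b ^ M) := by
          apply Nat.mul_le_mul_left; omega
      _ = b ^ J * b ^ M * (ω + 1) := by ring
      _ ≤ _ := Nat.mul_le_mul_left _ w1
  have hcg : ∀ x n, (β * p * x + a) % (b ^ M * β) = n % (b ^ M * β) →
      (β * p * (b ^ M * ω + x) + a) % b ^ (M + (k - 1)) = n % b ^ (M + (k - 1)) := by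
    intro x n hx
    rw [hMβ, ← hx]
    have : β * p * (b ^ M * ω + x) + a = (β * p * x + a) + (b ^ M * β) * (p * ω) := by ring
    rw [this, Nat.add_mul_mod_self_left]
  refine ⟨r₀, b ^ M * ω + x₁, b ^ M * ω + x₂, a,
    (β * p * (b ^ J * b ^ M * ω) + u) / (b ^ J * b ^ M * b ^ G),
    (β * q * (b ^ J * b ^ M * ω) + v) / (b ^ J * b ^ M * b ^ G), c1, hle x₁ d1, hle x₂ d3, c3, c4, c5,
    hcg x₁ n₁ d2, hcg x₂ n₂ d4, ?_⟩
  intro i j hi hj
  obtain ⟨x, hx, rfl⟩ : ∃ x, x < b ^ M ∧ i = b ^ M * ω + x := by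
    rcases hi with rfl | rfl
    · exact ⟨x₁, d1, rfl⟩
    · exact ⟨x₂, d3, rfl⟩
  have hj' : j < b ^ J := by omega
  rw [hK]
  apply w2
  · calc b ^ J * b ^ M * ω = b ^ J * (b ^ M * ω) := by ring
      _ ≤ b ^ J * (b ^ M * ω + x) := Nat.mul_le_mul_left _ (by omega)
      _ ≤ _ := Nat.le_add_right _ _
  · calc b ^ J * (b ^ M * ω + x) + j ≤ b ^ J * (b ^ M * ω + x) + b ^ J := by omega
      _ = b ^ J * (b ^ M * ω + x + 1) := by ring
      _ ≤ b ^ J * (b ^ M * ω + b ^ M) := by apply Nat.mul_le_mul_left; omega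
      _ = _ := by ring

end Pool.Agent.U602.MS
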