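import Pool.Agent.U602.MS.Contr

set_option autoImplicit false

/-! Bilinear sums of one block-digital function. -/

namespace Pool.Agent.U602.MS

open Finset
open Pool.Agent.H469R2.NK (e norm_e e_add e_zero conj_e)
open Pool.Agent.TH915.PW (e_int sum_char e_sub sum_blocks)

theorem single (b k p q : ℕ) (f : ℕ → ℂ) (h : BD b k f) (hp : p.Prime) (hp3 : 3 ≤ p)
    (hpb : ¬ p ∣ b) (hq : 0 < q) (hpq : ¬ p ∣ q) (hnd : ¬ Deg b k f) (ε : ℝ) (hε : 0 < ε) (m₁ : ℕ) :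
    ∃ m ≥ m₁, ∀ (u v : ℕ) (θ : ℝ), ‖∑ x ∈ range (b ^ m), f (p * x + u) *
      (starRingEnd ℂ) (f (q * x + v)) * e (x * θ)‖ ≤ ε * ((b ^ m : ℕ) : ℝ) := by
  obtain ⟨hb, hk, hf1, w, hf⟩ := h
  have hcop : p.Coprime b := (Nat.Prime.coprime_iff_not_dvd hp).2 hpb
  have hpq' : ¬ p ∣ b ^ (k - 1) * q := by
    intro hd
    rcases (Nat.Prime.dvd_mul hp).1 hd with h1 | h1
    · exact hpb (hp.dvd_of_dvd_pow h1)
    · exact hpq h1
  obtain ⟨K, c, hc, hcon⟩ := contr b k p q w f hb hk hf1 hf hp3 hq hcop hpq' hnd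
  have hterm : ∀ (x y : ℕ) (t : ℝ), ‖f x * (starRingEnd ℂ) (f y) * e t‖ = 1 := by
    intro x y t
    rw [norm_mul, norm_mul, RCLike.norm_conj, hf1, hf1, norm_e]
    norm_num
  have hbase : ∀ (u v : ℕ) (θ : ℝ), ‖∑ x ∈ range 1, f (b ^ (k - 1) * p * x + u) *
        (starRingEnd ℂ) (f (b ^ (k - 1) * q * x + v)) * e (x * θ)‖ ≤ 1 := by
    intro u v θ
    rw [sum_range_one, hterm]
  have hK1 := hcon 1 1 hbase 0 0 0
  have hpos : 0 ≤ ((b ^ K : ℕ) : ℝ) - c := by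
    rw [mul_one, mul_one] at hK1
    exact (norm_nonneg _).trans hK1
  have hK : 1 ≤ K := by
    by_contra hK0
    have : K = 0 := by omega
    subst this
    rw [pow_zero, one_mul, sum_range_one, hterm, mul_one] at hK1
    push_cast at hK1
    linarith
  have hit : ∀ (n : ℕ) (u v : ℕ) (θ : ℝ), ‖∑ x ∈ range (b ^ (K * n)), f (b ^ (k - 1) * p * x + u) *
        (starRingEnd ℂ) (f (b ^ (k - 1) * q * x + v)) * e (x * θ)‖ ≤
        (((b ^ K : ℕ) : ℝ) - c) ^ n := by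
    intro n
    induction n with
    | zero => simpa using hbase
    | succ n ih =>
      intro u v θ
      have h1 := hcon _ _ ih u v θ
      rw [show b ^ (K * (n + 1)) = b ^ K * b ^ (K * n) by rw [mul_add, mul_one, pow_add, mul_comm],
        pow_succ' (((b ^ K : ℕ) : ℝ) - c)]
      exact h1
  have hB : (0 : ℝ) < ((b ^ K : ℕ) : ℝ) := by
    have : 0 < b ^ K := by positivity
    exact_mod_cast this
  set ρ : ℝ := (((b ^ K : ℕ) : ℝ) - c) / ((b ^ K : ℕ) : ℝ) with hρ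
  have hρ0 : 0 ≤ ρ := by positivity
  have hρ1 : ρ < 1 := by
    rw [hρ, div_lt_one hB]
    linarith
  obtain ⟨n₀, hn₀⟩ := exists_pow_lt_of_lt_one hε hρ1
  set n : ℕ := max n₀ m₁ with hn
  refine ⟨(k - 1) + K * n, ?_, fun u v θ => ?_⟩
  · have : m₁ ≤ n := le_max_right _ _
    nlinarith
  have hρn : ρ ^ n ≤ ε := by
    refine le_trans (pow_le_pow_of_le_one hρ0 hρ1.le (le_max_left n₀ m₁)) hn₀.le
  have e0 : b ^ ((k - 1) + K * n) = b ^ (k - 1) * b ^ (K * n) := pow_add _ _ _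
  rw [e0, sum_blocks, sum_comm]
  refine (norm_sum_le _ _).trans ?_
  have h1 : ∀ z ∈ range (b ^ (k - 1)), ‖∑ m ∈ range (b ^ (K * n)),
      f (p * (b ^ (k - 1) * m + z) + u) * (starRingEnd ℂ) (f (q * (b ^ (k - 1) * m + z) + v)) *
        e (((b ^ (k - 1) * m + z : ℕ) : ℝ) * θ)‖ ≤ (((b ^ K : ℕ) : ℝ) - c) ^ n := by
    intro z _
    have e1 : ∑ m ∈ range (b ^ (K * n)),
        f (p * (b ^ (k - 1) * m + z) + u) * (starRingEnd ℂ) (f (q * (b ^ (k - 1) * m + z) + v)) *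
        e (((b ^ (k - 1) * m + z : ℕ) : ℝ) * θ) =
        e (z * θ) * ∑ m ∈ range (b ^ (K * n)), f (b ^ (k - 1) * p * m + (p * z + u)) *
          (starRingEnd ℂ) (f (b ^ (k - 1) * q * m + (q * z + v))) *
          e (m * (((b ^ (k - 1) : ℕ) : ℝ) * θ)) := by
      rw [mul_sum]
      refine sum_congr rfl fun m _ => ?_
      have e2 : e (((b ^ (k - 1) * m + z : ℕ) : ℝ) * θ) =
          e (z * θ) * e (m * (((b ^ (k - 1) : ℕ) : ℝ) * θ)) := by
        rw [← e_add]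
        congr 1
        push_cast
        ring
      rw [e2, show p * (b ^ (k - 1) * m + z) + u = b ^ (k - 1) * p * m + (p * z + u) by ring,
        show q * (b ^ (k - 1) * m + z) + v = b ^ (k - 1) * q * m + (q * z + v) by ring]
      ring
    rw [e1, norm_mul, norm_e, one_mul]
    exact hit n _ _ _
  refine (sum_le_card_nsmul _ _ _ h1).trans ?_
  rw [card_range, nsmul_eq_mul]
  have e3 : (((b ^ K : ℕ) : ℝ) - c) ^ n = ρ ^ n * ((b ^ (K * n) : ℕ) : ℝ) := by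
    rw [hρ, div_pow, pow_mul]
    push_cast
    field_simp
  rw [e3]
  calc ((b ^ (k - 1) : ℕ) : ℝ) * (ρ ^ n * ((b ^ (K * n) : ℕ) : ℝ))
      = ρ ^ n * (((b ^ (k - 1) : ℕ) : ℝ) * ((b ^ (K * n) : ℕ) : ℝ)) := by ring
    _ ≤ ε * (((b ^ (k - 1) : ℕ) : ℝ) * ((b ^ (K * n) : ℕ) : ℝ)) := by gcongr
    _ = _ := by push_cast; ring

end Pool.Agent.U602.MS
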