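import Pool.Agent.U602.MS.Win

set_option autoImplicit false
set_option linter.unusedSectionVars false

/-! Products of the subshifts of block-digital functions and rotations of tori. -/

namespace Pool.Agent.U602.MS

open Finset Filter Topology
open Pool.Agent.H469R2.NK (e norm_e e_add e_zero conj_e)
open Pool.Agent.H446R3.SK (mF mF_add mF_nsmul mF_norm_apply cind)

/-- compactness -/
lemma approx_sep {Z : Type*} [TopologicalSpace Z] [CompactSpace Z] {A : ℕ → Type*}
    [∀ L, TopologicalSpace (A L)] [∀ L, T2Space (A L)] (π : ∀ L, Z → A L)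
    (hπ : ∀ L, Continuous (π L)) (hmono : ∀ L z z', π (L + 1) z = π (L + 1) z' → π L z = π L z')
    (hsep : ∀ z z', (∀ L, π L z = π L z') → z = z') (F : C(Z, ℂ)) (ε : ℝ) (hε : 0 < ε) :
    ∃ L, ∀ z z', π L z = π L z' → ‖F z - F z'‖ < ε := by
  by_contra hcon
  push Not at hcon
  set t : ℕ → Set (Z × Z) := fun L => {q | π L q.1 = π L q.2 ∧ ε ≤ ‖F q.1 - F q.2‖} with ht
  have hcl : ∀ L, IsClosed (t L) := fun L => by
    refine IsClosed.inter (isClosed_eq ((hπ L).comp continuous_fst) ((hπ L).comp continuous_snd)) ?_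
    exact isClosed_le continuous_const
      (((F.continuous.comp continuous_fst).sub (F.continuous.comp continuous_snd)).norm)
  obtain ⟨⟨z, z'⟩, hz⟩ := IsCompact.nonempty_iInter_of_sequence_nonempty_isCompact_isClosed t
    (fun L q hq => ⟨hmono L _ _ hq.1, hq.2⟩)
    (fun L => by obtain ⟨z, z', h1, h2⟩ := hcon L; exact ⟨(z, z'), h1, h2⟩)
    ((hcl 0).isCompact) hcl
  rw [Set.mem_iInter] at hz
  have h1 : z = z' := hsep z z' fun L => (hz L).1
  have h2 := (hz 0).2
  subst h1
  simp only [sub_self, norm_zero] at h2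
  linarith

/-- the closure of the orbit -/
def XX {G : Type} [TopologicalSpace G] (S : ℕ → G) : Set (ℕ → G) :=
  closure (Set.range fun c : ℕ => fun n : ℕ => S (n + c))

section

variable {G : Type} [TopologicalSpace G]

lemma XX_shift {S x : ℕ → G} (hx : x ∈ XX S) : (fun k => x (k + 1)) ∈ XX S := by
  have hc : Continuous (fun z : ℕ → G => fun k : ℕ => z (k + 1)) :=
    continuous_pi fun k => continuous_apply (k + 1)
  have h1 : Set.MapsTo (fun z : ℕ → G => fun k : ℕ => z (k + 1))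
      (Set.range fun c : ℕ => fun n : ℕ => S (n + c))
      (Set.range fun c : ℕ => fun n : ℕ => S (n + c)) := by
    rintro _ ⟨c, rfl⟩
    refine ⟨c + 1, ?_⟩
    funext n
    show S (n + (c + 1)) = S (n + 1 + c)
    rw [show n + (c + 1) = n + 1 + c by omega]
  exact h1.closure hc hx

/-- the shift -/
def TT (S : ℕ → G) : XX S → XX S := fun x => ⟨fun k => x.1 (k + 1), XX_shift x.2⟩

lemma iter_TT (S : ℕ → G) (n : ℕ) (x : XX S) : ((TT S)^[n] x).1 = fun k => x.1 (n + k) := by
  induction n generalizing x with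
  | zero => simp
  | succ n ih =>
    rw [Function.iterate_succ_apply, ih]
    funext k
    show x.1 (n + k + 1) = x.1 (n + 1 + k)
    rw [show n + k + 1 = n + 1 + k by omega]

lemma XX_approx [DiscreteTopology G] {S x : ℕ → G} (hx : x ∈ XX S) (K : ℕ) :
    ∃ c, ∀ j, j < K → x j = S (j + c) := by
  have hopen : IsOpen (Set.pi ((range K : Finset ℕ) : Set ℕ) (fun j => ({x j} : Set G))) :=
    isOpen_set_pi (Finset.finite_toSet _) (fun _ _ => isOpen_discrete _)
  obtain ⟨y, hy1, hy2⟩ := mem_closure_iff.1 hx _ hopen (fun j _ => rfl)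
  obtain ⟨c, rfl⟩ := hy2
  refine ⟨c, fun j hj => ?_⟩
  exact (hy1 j (by simpa using hj)).symm

lemma XX_closed (S : ℕ → G) : IsClosed (XX S) := isClosed_closure

instance (S : ℕ → G) [CompactSpace G] : CompactSpace (XX S) :=
  isCompact_iff_compactSpace.1 (XX_closed S).isCompact

end

variable {ι : Type} [Fintype ι] [DecidableEq ι]

lemma norm_mob (n : ℕ) : ‖mob n‖ ≤ 1 := by
  unfold mob
  rw [Complex.norm_intCast]
  have := ArithmeticFunction.abs_moebius_le_one (n := n)
  exact_mod_cast this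

section

variable {G : ι → Type} [∀ i, Group (G i)] [∀ i, Fintype (G i)] [∀ i, DecidableEq (G i)]
    [∀ i, TopologicalSpace (G i)] [∀ i, DiscreteTopology (G i)]

theorem torus_part {m : ℕ}
    (b k : ι → ℕ) (S w : ∀ i, ℕ → G i) (hb : ∀ i, 2 ≤ b i) (hk : ∀ i, 1 ≤ k i)
    (hS : ∀ i n, S i n = w i (n % b i ^ k i) * S i (n / b i)) (hGP : GP G S)
    (L : ℕ) (a : ∀ i, Fin L → G i) (g : C(Fin m → UnitAddCircle, ℂ)) :
    ∀ ε : ℝ, 0 < ε → ∃ N₀ : ℕ, ∀ N, N₀ ≤ N → ∀ (c : ι → ℕ) (y γ : Fin m → UnitAddCircle),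
      ‖∑ n ∈ Ioc 0 N, mob n * (if (fun i (h : Fin L) => S i (n + c i + h)) = a then (1 : ℂ) else 0) *
        g (y + n • γ)‖ ≤ ε * N := by
  refine cind (P := fun g => ∀ ε : ℝ, 0 < ε → ∃ N₀ : ℕ, ∀ N, N₀ ≤ N → ∀ (c : ι → ℕ)
      (y γ : Fin m → UnitAddCircle), ‖∑ n ∈ Ioc 0 N, mob n *
        (if (fun i (h : Fin L) => S i (n + c i + h)) = a then (1 : ℂ) else 0) *
        g (y + n • γ)‖ ≤ ε * N) ?_ ?_ ?_ ?_ ?_ g
  · intro ε hε
    exact ⟨0, fun N _ c y γ => by simp; positivity⟩
  · intro κ ε hε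
    obtain ⟨N₀, hN₀⟩ := windows G b k S w hb hk hS hGP L (fun x => if x = a then (1 : ℂ) else 0) ε hε
    refine ⟨N₀, fun N hN c y γ => ?_⟩
    obtain ⟨θ, hθ⟩ : ∃ θ : ℝ, θ = Complex.arg (mF κ γ) / (2 * Real.pi) := ⟨_, rfl⟩
    have h1 : mF κ γ = e θ := by
      have h2 := Complex.norm_mul_exp_arg_mul_I (mF κ γ)
      rw [mF_norm_apply, Complex.ofReal_one, one_mul] at h2
      unfold e
      rw [← h2, hθ]
      have hpi := Real.pi_pos.ne'
      congr 2
      congr 1
      field_simp
    have h2 : ∀ n : ℕ, (e θ) ^ n = e (n * θ) := by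
      intro n
      induction n with
      | zero => simp [e_zero]
      | succ n ih =>
        rw [pow_succ, ih, ← e_add]
        congr 1
        push_cast
        ring
    have h3 : ∀ n ∈ Ioc 0 N, mob n *
        (if (fun i (h : Fin L) => S i (n + c i + h)) = a then (1 : ℂ) else 0) * mF κ (y + n • γ) =
        mF κ y * (mob n * (if (fun i (h : Fin L) => S i (n + c i + h)) = a then (1 : ℂ) else 0) *
          e (n * θ)) := by
      intro n _
      rw [mF_add, mF_nsmul, h1, h2]
      ring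
    rw [sum_congr rfl h3, ← mul_sum, norm_mul, mF_norm_apply, one_mul]
    exact hN₀ N hN c θ
  · intro f g hf hg ε hε
    obtain ⟨N1, h1⟩ := hf (ε / 2) (by positivity)
    obtain ⟨N2, h2⟩ := hg (ε / 2) (by positivity)
    refine ⟨max N1 N2, fun N hN c y γ => ?_⟩
    have h3 := h1 N ((le_max_left _ _).trans hN) c y γ
    have h4 := h2 N ((le_max_right _ _).trans hN) c y γ
    simp only [ContinuousMap.add_apply, mul_add, sum_add_distrib]
    exact (norm_add_le _ _).trans (by linarith)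
  · intro z f hf ε hε
    obtain ⟨N1, h1⟩ := hf (ε / (‖z‖ + 1)) (by positivity)
    refine ⟨N1, fun N hN c y γ => ?_⟩
    have h3 := h1 N hN c y γ
    have h4 : ∑ n ∈ Ioc 0 N, mob n *
        (if (fun i (h : Fin L) => S i (n + c i + h)) = a then (1 : ℂ) else 0) *
          (z • f) (y + n • γ) = z * ∑ n ∈ Ioc 0 N, mob n *
        (if (fun i (h : Fin L) => S i (n + c i + h)) = a then (1 : ℂ) else 0) * f (y + n • γ) := by
      rw [mul_sum]
      exact sum_congr rfl fun n _ => by simp only [ContinuousMap.smul_apply, smul_eq_mul]; ring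
    rw [h4, norm_mul]
    calc _ ≤ (‖z‖ + 1) * (ε / (‖z‖ + 1) * N) := by gcongr; linarith
      _ = ε * N := by field_simp
  · intro f hf ε hε
    obtain ⟨g, hg, hfg⟩ := hf (ε / 2) (by positivity)
    obtain ⟨N1, h1⟩ := hg (ε / 2) (by positivity)
    refine ⟨N1, fun N hN c y γ => ?_⟩
    have h3 := h1 N hN c y γ
    have h4 : ∀ z, ‖f z - g z‖ ≤ ε / 2 := fun z => ((f - g).norm_coe_le_norm z).trans hfg.le
    have h5 : ‖∑ n ∈ Ioc 0 N, mob n *
        (if (fun i (h : Fin L) => S i (n + c i + h)) = a then (1 : ℂ) else 0) * f (y + n • γ) -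
        ∑ n ∈ Ioc 0 N, mob n *
        (if (fun i (h : Fin L) => S i (n + c i + h)) = a then (1 : ℂ) else 0) * g (y + n • γ)‖ ≤
        ε / 2 * N := by
      rw [← sum_sub_distrib]
      refine (norm_sum_le _ _).trans ((sum_le_sum (g := fun _ => ε / 2) fun n _ => ?_).trans ?_)
      · rw [← mul_sub, norm_mul]
        have h6 : ‖mob n * (if (fun i (h : Fin L) => S i (n + c i + h)) = a then (1 : ℂ) else 0)‖ ≤
            1 := by
          rw [norm_mul]
          refine mul_le_one₀ (norm_mob n) (norm_nonneg _) ?_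
          split_ifs <;> simp
        calc _ ≤ 1 * (ε / 2) := mul_le_mul h6 (h4 _) (norm_nonneg _) zero_le_one
          _ = _ := one_mul _
      · rw [sum_const, Nat.card_Ioc, nsmul_eq_mul]; simp; linarith
    calc _ = ‖(∑ n ∈ Ioc 0 N, mob n *
        (if (fun i (h : Fin L) => S i (n + c i + h)) = a then (1 : ℂ) else 0) * f (y + n • γ) -
        ∑ n ∈ Ioc 0 N, mob n *
        (if (fun i (h : Fin L) => S i (n + c i + h)) = a then (1 : ℂ) else 0) * g (y + n • γ)) +
          ∑ n ∈ Ioc 0 N, mob n *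
        (if (fun i (h : Fin L) => S i (n + c i + h)) = a then (1 : ℂ) else 0) * g (y + n • γ)‖ := by
          congr 1; ring
      _ ≤ _ := norm_add_le _ _
      _ ≤ _ := by linarith

theorem product {m : ℕ}
    (b k : ι → ℕ) (S w : ∀ i, ℕ → G i) (hb : ∀ i, 2 ≤ b i) (hk : ∀ i, 1 ≤ k i)
    (hS : ∀ i n, S i n = w i (n % b i ^ k i) * S i (n / b i)) (hGP : GP G S)
    (F : C((∀ i, XX (S i)) × (Fin m → UnitAddCircle), ℂ)) (ε : ℝ) (hε : 0 < ε) :
    ∃ N₀ : ℕ, ∀ N, N₀ ≤ N → ∀ (x : ∀ i, XX (S i)) (y γ : Fin m → UnitAddCircle),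
      ‖∑ n ∈ Ioc 0 N, mob n * F (fun i => (TT (S i))^[n] (x i), y + n • γ)‖ ≤ ε * N := by
  classical
  have : ∀ i, CompactSpace (G i) := fun i => Finite.compactSpace
  -- windows
  obtain ⟨L, hL⟩ := approx_sep (Z := (∀ i, XX (S i)) × (Fin m → UnitAddCircle))
    (A := fun L => (∀ i, Fin L → G i) × (Fin m → UnitAddCircle))
    (fun L z => (fun i h => (z.1 i).1 h, z.2))
    (fun L => by
      refine Continuous.prodMk ?_ continuous_snd
      refine continuous_pi fun i => continuous_pi fun h => ?_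
      exact (continuous_apply (h : ℕ)).comp (continuous_subtype_val.comp
        ((continuous_apply i).comp continuous_fst)))
    (fun L z z' h => by
      simp only [Prod.mk.injEq] at h ⊢
      refine ⟨?_, h.2⟩
      funext i j
      have := congrFun (congrFun h.1 i) j.castSucc
      simpa using this)
    (fun z z' h => by
      refine Prod.ext ?_ ?_
      · funext i
        refine Subtype.ext (funext fun n => ?_)
        have h1 := h (n + 1)
        simp only [Prod.mk.injEq] at h1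
        exact congrFun (congrFun h1.1 i) ⟨n, by omega⟩
      · have h1 := h 0
        simp only [Prod.mk.injEq] at h1
        exact h1.2) F (ε / 2) (by positivity)
  -- representatives
  set win : (∀ i, XX (S i)) → ∀ i, Fin L → G i := fun x i h => (x i).1 h with hwin
  have hex : ∀ a : ∀ i, Fin L → G i, ∃ g : C(Fin m → UnitAddCircle, ℂ),
      ∀ x, win x = a → ∀ y, ‖F (x, y) - g y‖ ≤ ε / 2 := by
    intro a
    by_cases h : ∃ x, win x = a
    · obtain ⟨x₀, hx₀⟩ := h
      refine ⟨F.comp ⟨fun y => (x₀, y), by fun_prop⟩, fun x hx y => ?_⟩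
      refine (hL (x, y) (x₀, y) ?_).le
      simp only [Prod.mk.injEq, and_true]
      exact hx.trans hx₀.symm
    · exact ⟨0, fun x hx => absurd ⟨x, hx⟩ h⟩
  choose g hg using hex
  set A : ℕ := Fintype.card (∀ i, Fin L → G i) with hA
  have hA0 : (0 : ℝ) ≤ A := Nat.cast_nonneg _
  choose N₁ hN₁ using fun a => torus_part b k S w hb hk hS hGP L a (g a) (ε / (2 * (A + 1)))
    (by positivity)
  refine ⟨∑ a, N₁ a, fun N hN x y γ => ?_⟩
  choose c hc using fun i => XX_approx (x i).2 (N + L + 1)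
  have hwn : ∀ n ∈ Ioc 0 N, win (fun i => (TT (S i))^[n] (x i)) =
      fun i (h : Fin L) => S i (n + c i + h) := by
    intro n hn
    rw [mem_Ioc] at hn
    funext i h
    rw [hwin]
    simp only
    rw [iter_TT]
    simp only
    rw [hc i (n + h) (by have := h.2; omega)]
    congr 1
    ring
  have h1 : ‖∑ n ∈ Ioc 0 N, mob n * F (fun i => (TT (S i))^[n] (x i), y + n • γ) -
      ∑ n ∈ Ioc 0 N, mob n * g (fun i (h : Fin L) => S i (n + c i + h)) (y + n • γ)‖ ≤
      ε / 2 * N := by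
    rw [← sum_sub_distrib]
    refine (norm_sum_le _ _).trans ((sum_le_sum (g := fun _ => ε / 2) fun n hn => ?_).trans ?_)
    · rw [← mul_sub, norm_mul]
      calc _ ≤ 1 * (ε / 2) := mul_le_mul (norm_mob n) (hg _ _ (hwn n hn) _) (norm_nonneg _)
            zero_le_one
        _ = _ := one_mul _
    · rw [sum_const, Nat.card_Ioc, nsmul_eq_mul]; simp; linarith
  have h2 : ‖∑ n ∈ Ioc 0 N, mob n * g (fun i (h : Fin L) => S i (n + c i + h)) (y + n • γ)‖ ≤
      ε / 2 * N := by
    have h3 : ∀ n, mob n * g (fun i (h : Fin L) => S i (n + c i + h)) (y + n • γ) =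
        ∑ a, mob n * (if (fun i (h : Fin L) => S i (n + c i + h)) = a then (1 : ℂ) else 0) *
          g a (y + n • γ) := by
      intro n
      simp only [mul_ite, mul_one, mul_zero, ite_mul, zero_mul]
      rw [Finset.sum_ite_eq, if_pos (mem_univ _)]
    rw [sum_congr rfl (fun n _ => h3 n), sum_comm]
    refine (norm_sum_le _ _).trans ?_
    have h4 : ∀ a ∈ (univ : Finset (∀ i, Fin L → G i)), ‖∑ n ∈ Ioc 0 N,
        mob n * (if (fun i (h : Fin L) => S i (n + c i + h)) = a then (1 : ℂ) else 0) *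
          g a (y + n • γ)‖ ≤ ε / (2 * (A + 1)) * N := by
      intro a _
      exact hN₁ a N ((single_le_sum (f := N₁) (fun _ _ => Nat.zero_le _) (mem_univ a)).trans hN)
        c y γ
    refine (sum_le_card_nsmul _ _ _ h4).trans ?_
    rw [nsmul_eq_mul, card_univ, ← hA]
    have h5 : (A : ℝ) * (ε / (2 * (A + 1)) * N) = (A / (A + 1)) * (ε / 2 * N) := by
      field_simp
    rw [h5]
    have h6 : (A : ℝ) / (A + 1) ≤ 1 := by
      rw [div_le_one (by positivity)]
      linarith
    have h7 : 0 ≤ ε / 2 * N := by positivity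
    nlinarith
  have h9 := norm_add_le (∑ n ∈ Ioc 0 N, mob n * F (fun i => (TT (S i))^[n] (x i), y + n • γ) -
      ∑ n ∈ Ioc 0 N, mob n * g (fun i (h : Fin L) => S i (n + c i + h)) (y + n • γ))
      (∑ n ∈ Ioc 0 N, mob n * g (fun i (h : Fin L) => S i (n + c i + h)) (y + n • γ))
  rw [sub_add_cancel] at h9
  linarith

end

end Pool.Agent.U602.MS
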