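import Pool.Agent.U602.MS.Ab

set_option autoImplicit false
set_option linter.unusedSectionVars false

/-! Two-sided subshifts. -/

namespace Pool.Agent.U602.MS

open Finset Filter Topology
open Pool.Agent.H469R2.NK (e norm_e e_add e_zero conj_e)

/-- bi-infinite sequences all of whose finite blocks occur in `S` -/
def XZ {G : Type} (S : ℕ → G) : Set (ℤ → G) :=
  {x | ∀ L : ℕ, ∃ c : ℕ, ∀ j : ℕ, j ≤ 2 * L → x ((j : ℤ) - L) = S (c + j)}

section

variable {G : Type}

lemma XZ_succ {S : ℕ → G} {x : ℤ → G} (hx : x ∈ XZ S) : (fun j => x (j + 1)) ∈ XZ S := by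
  intro L
  obtain ⟨c, hc⟩ := hx (L + 1)
  refine ⟨c + 2, fun j hj => ?_⟩
  have h1 := hc (j + 2) (by omega)
  simp only
  rw [show c + 2 + j = c + (j + 2) by ring, ← h1]
  congr 1
  push_cast
  ring

lemma XZ_pred {S : ℕ → G} {x : ℤ → G} (hx : x ∈ XZ S) : (fun j => x (j - 1)) ∈ XZ S := by
  intro L
  obtain ⟨c, hc⟩ := hx (L + 1)
  refine ⟨c, fun j hj => ?_⟩
  have h1 := hc j (by omega)
  simp only
  rw [← h1]
  congr 1
  push_cast
  ring

variable [TopologicalSpace G]

/-- the shift -/
def shift (S : ℕ → G) : XZ S ≃ₜ XZ S where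
  toFun x := ⟨fun j => x.1 (j + 1), XZ_succ x.2⟩
  invFun x := ⟨fun j => x.1 (j - 1), XZ_pred x.2⟩
  left_inv x := Subtype.ext (funext fun j => by simp)
  right_inv x := Subtype.ext (funext fun j => by simp)
  continuous_toFun := by
    refine Continuous.subtype_mk (continuous_pi fun j => ?_) _
    have h : Continuous (fun x : XZ S => x.1 (j + 1)) :=
      (continuous_apply (j + 1)).comp continuous_subtype_val
    exact h
  continuous_invFun := by
    refine Continuous.subtype_mk (continuous_pi fun j => ?_) _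
    have h : Continuous (fun x : XZ S => x.1 (j - 1)) :=
      (continuous_apply (j - 1)).comp continuous_subtype_val
    exact h

lemma iter_shift (S : ℕ → G) (n : ℕ) (x : XZ S) :
    ((shift S)^[n] x).1 = fun j => x.1 (n + j) := by
  induction n generalizing x with
  | zero => simp
  | succ n ih =>
    rw [Function.iterate_succ_apply, ih]
    funext j
    show x.1 (n + j + 1) = x.1 ((n + 1 : ℕ) + j)
    have e1 : (n : ℤ) + j + 1 = ((n + 1 : ℕ) : ℤ) + j := by
      push_cast
      ring
    rw [e1]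

lemma XZ_closed [Finite G] [DiscreteTopology G] (S : ℕ → G) : IsClosed (XZ S) := by
  have h1 : XZ S = ⋂ L : ℕ, (fun x : ℤ → G => fun j : Fin (2 * L + 1) => x ((j : ℤ) - L)) ⁻¹'
      {y | ∃ c : ℕ, ∀ j : Fin (2 * L + 1), y j = S (c + j)} := by
    ext x
    simp only [XZ, Set.mem_ofPred_eq, Set.mem_iInter, Set.mem_preimage]
    refine forall_congr' fun L => exists_congr fun c => ?_
    constructor
    · intro h j
      exact h j (by have := j.2; omega)
    · intro h j hj
      exact h ⟨j, by omega⟩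
  rw [h1]
  refine isClosed_iInter fun L => ?_
  refine IsClosed.preimage ?_ (isClosed_discrete _)
  exact continuous_pi fun j => continuous_apply _

instance [Finite G] [DiscreteTopology G] (S : ℕ → G) : CompactSpace (XZ S) :=
  isCompact_iff_compactSpace.1 (XZ_closed S).isCompact

end

variable {ι : Type} [Fintype ι] [DecidableEq ι]

section

variable {G : ι → Type} [∀ i, Group (G i)] [∀ i, Fintype (G i)] [∀ i, DecidableEq (G i)]
    [∀ i, TopologicalSpace (G i)] [∀ i, DiscreteTopology (G i)]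

theorem product2 {m : ℕ}
    (b k : ι → ℕ) (S w : ∀ i, ℕ → G i) (hb : ∀ i, 2 ≤ b i) (hk : ∀ i, 1 ≤ k i)
    (hS : ∀ i n, S i n = w i (n % b i ^ k i) * S i (n / b i)) (hGP : GP G S)
    (F : C((∀ i, XZ (S i)) × (Fin m → UnitAddCircle), ℂ)) (ε : ℝ) (hε : 0 < ε) :
    ∃ N₀ : ℕ, ∀ N, N₀ ≤ N → ∀ (x : ∀ i, XZ (S i)) (y γ : Fin m → UnitAddCircle),
      ‖∑ n ∈ Ioc 0 N, mob n * F (fun i => (shift (S i))^[n] (x i), y + n • γ)‖ ≤ ε * N := by
  classical
  -- windows
  obtain ⟨L, hL⟩ := approx_sep (Z := (∀ i, XZ (S i)) × (Fin m → UnitAddCircle))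
    (A := fun L => (∀ i, Fin (2 * L + 1) → G i) × (Fin m → UnitAddCircle))
    (fun L z => (fun i h => (z.1 i).1 ((h : ℤ) - L), z.2))
    (fun L => by
      refine Continuous.prodMk ?_ continuous_snd
      refine continuous_pi fun i => continuous_pi fun h => ?_
      exact (continuous_apply ((h : ℤ) - L)).comp (continuous_subtype_val.comp
        ((continuous_apply i).comp continuous_fst)))
    (fun L z z' h => by
      simp only [Prod.mk.injEq] at h ⊢
      refine ⟨?_, h.2⟩
      funext i j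
      have := congrFun (congrFun h.1 i) ⟨j + 1, by have := j.2; omega⟩
      simp only at this
      have e1 : (((j : ℕ) + 1 : ℕ) : ℤ) - ((L + 1 : ℕ) : ℤ) = (j : ℤ) - L := by push_cast; ring
      rwa [e1] at this)
    (fun z z' h => by
      refine Prod.ext ?_ ?_
      · funext i
        refine Subtype.ext (funext fun n => ?_)
        have h1 := h n.natAbs
        simp only [Prod.mk.injEq] at h1
        have h2 := congrFun (congrFun h1.1 i) ⟨(n + n.natAbs).toNat, by omega⟩
        simp only at h2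
        have e1 : (((n + n.natAbs).toNat : ℕ) : ℤ) - (n.natAbs : ℤ) = n := by omega
        rwa [e1] at h2
      · have h1 := h 0
        simp only [Prod.mk.injEq] at h1
        exact h1.2) F (ε / 2) (by positivity)
  -- representatives
  set win : (∀ i, XZ (S i)) → ∀ i, Fin (2 * L + 1) → G i := fun x i h => (x i).1 ((h : ℤ) - L)
    with hwin
  have hex : ∀ a : ∀ i, Fin (2 * L + 1) → G i, ∃ g : C(Fin m → UnitAddCircle, ℂ),
      ∀ x, win x = a → ∀ y, ‖F (x, y) - g y‖ ≤ ε / 2 := by
    intro a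
    by_cases h : ∃ x, win x = a
    · obtain ⟨x₀, hx₀⟩ := h
      refine ⟨F.comp ⟨fun y => (x₀, y), by fun_prop⟩, fun x hx y => ?_⟩
      refine (hL (x, y) (x₀, y) ?_).le
      simp only [Prod.mk.injEq, and_true]
      exact hx.trans hx₀.symm
    · exact ⟨0, fun x hx => absurd ⟨x, hx⟩ h⟩
  choose g hg using hex
  set A : ℕ := Fintype.card (∀ i, Fin (2 * L + 1) → G i) with hA
  have hA0 : (0 : ℝ) ≤ A := Nat.cast_nonneg _
  choose N₁ hN₁ using fun a => torus_part b k S w hb hk hS hGP (2 * L + 1) a (g a)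
    (ε / (2 * (A + 1))) (by positivity)
  refine ⟨∑ a, N₁ a, fun N hN x y γ => ?_⟩
  choose c' hc' using fun i => (x i).2 (N + L)
  set c : ι → ℕ := fun i => c' i + N with hc
  have hwn : ∀ n ∈ Ioc 0 N, win (fun i => (shift (S i))^[n] (x i)) =
      fun i (h : Fin (2 * L + 1)) => S i (n + c i + h) := by
    intro n hn
    rw [mem_Ioc] at hn
    funext i h
    rw [hwin]
    simp only
    rw [iter_shift]
    simp only
    have h1 := hc' i (N + n + h) (by have := h.2; omega)
    rw [hc]
    simp only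
    rw [show n + (c' i + N) + (h : ℕ) = c' i + (N + n + h) by ring, ← h1]
    have e1 : ((N + n + h : ℕ) : ℤ) - ((N + L : ℕ) : ℤ) = n + ((h : ℤ) - L) := by
      push_cast
      ring
    rw [e1]
  have h1 : ‖∑ n ∈ Ioc 0 N, mob n * F (fun i => (shift (S i))^[n] (x i), y + n • γ) -
      ∑ n ∈ Ioc 0 N, mob n * g (fun i (h : Fin (2 * L + 1)) => S i (n + c i + h)) (y + n • γ)‖ ≤
      ε / 2 * N := by
    rw [← sum_sub_distrib]
    refine (norm_sum_le _ _).trans ((sum_le_sum (g := fun _ => ε / 2) fun n hn => ?_).trans ?_)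
    · rw [← mul_sub, norm_mul]
      calc _ ≤ 1 * (ε / 2) := mul_le_mul (norm_mob n) (hg _ _ (hwn n hn) _) (norm_nonneg _)
            zero_le_one
        _ = _ := one_mul _
    · rw [sum_const, Nat.card_Ioc, nsmul_eq_mul]; simp; linarith
  have h2 : ‖∑ n ∈ Ioc 0 N, mob n * g (fun i (h : Fin (2 * L + 1)) => S i (n + c i + h))
      (y + n • γ)‖ ≤ ε / 2 * N := by
    have h3 : ∀ n, mob n * g (fun i (h : Fin (2 * L + 1)) => S i (n + c i + h)) (y + n • γ) =
        ∑ a, mob n * (if (fun i (h : Fin (2 * L + 1)) => S i (n + c i + h)) = a then (1 : ℂ)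
          else 0) * g a (y + n • γ) := by
      intro n
      simp only [mul_ite, mul_one, mul_zero, ite_mul, zero_mul]
      rw [Finset.sum_ite_eq, if_pos (mem_univ _)]
    rw [sum_congr rfl (fun n _ => h3 n), sum_comm]
    refine (norm_sum_le _ _).trans ?_
    have h4 : ∀ a ∈ (univ : Finset (∀ i, Fin (2 * L + 1) → G i)), ‖∑ n ∈ Ioc 0 N,
        mob n * (if (fun i (h : Fin (2 * L + 1)) => S i (n + c i + h)) = a then (1 : ℂ) else 0) *
          g a (y + n • γ)‖ ≤ ε / (2 * (A + 1)) * N := by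
      intro a _
      exact hN₁ a N ((single_le_sum (f := N₁) (fun _ _ => Nat.zero_le _) (mem_univ a)).trans hN)
        c y γ
    refine (sum_le_card_nsmul _ _ _ h4).trans ?_
    rw [nsmul_eq_mul, card_univ, ← hA]
    have h5 : (A : ℝ) * (ε / (2 * (A + 1)) * N) = (A / (A + 1)) * (ε / 2 * N) := by
      field_simp
    rw [h5]
    have h6 : (A : ℝ) / (A + 1) ≤ 1 := by
      rw [div_le_one (by positivity)]
      linarith
    have h7 : 0 ≤ ε / 2 * N := by positivity
    nlinarith
  have h9 := norm_add_le (∑ n ∈ Ioc 0 N, mob n * F (fun i => (shift (S i))^[n] (x i), y + n • γ) -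
      ∑ n ∈ Ioc 0 N, mob n * g (fun i (h : Fin (2 * L + 1)) => S i (n + c i + h)) (y + n • γ))
      (∑ n ∈ Ioc 0 N, mob n * g (fun i (h : Fin (2 * L + 1)) => S i (n + c i + h)) (y + n • γ))
  rw [sub_add_cancel] at h9
  linarith

end

end Pool.Agent.U602.MS
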