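import Pool.Agent.U602.MS.Core

set_option autoImplicit false
set_option linter.unusedSectionVars false

/-! Functions of windows of group-valued block-digital functions. -/

namespace Pool.Agent.U602.MS

open Finset
open Pool.Agent.H469R2.NK (e norm_e e_add e_zero conj_e)

section one

variable {G : Type} [Group G] {b k : ℕ} {S w : ℕ → G}

/-- the local part -/
def WG (b : ℕ) (S : ℕ → G) (M n : ℕ) : G := S n * (S (n / b ^ M))⁻¹

lemma WG_cong (hb : 2 ≤ b) (hk : 1 ≤ k) (hS : ∀ n, S n = w (n % b ^ k) * S (n / b)) (M : ℕ) :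
    ∀ n n' : ℕ, n % b ^ (M + (k - 1)) = n' % b ^ (M + (k - 1)) → WG b S M n = WG b S M n' := by
  induction M with
  | zero => intro n n' _; simp [WG]
  | succ M ih =>
    intro n n' hn
    have hstep : ∀ n, WG b S (M + 1) n = w (n % b ^ k) * WG b S M (n / b) := by
      intro n
      unfold WG
      rw [hS n, pow_succ', ← Nat.div_div_eq_div_mul, mul_assoc]
    rw [hstep n, hstep n']
    have h1 : n % b ^ k = n' % b ^ k := by
      have hd : b ^ k ∣ b ^ (M + 1 + (k - 1)) := pow_dvd_pow _ (by omega)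
      rw [← Nat.mod_mod_of_dvd n hd, hn, Nat.mod_mod_of_dvd n' hd]
    have h2 : (n / b) % b ^ (M + (k - 1)) = (n' / b) % b ^ (M + (k - 1)) := by
      have hh : ∀ n : ℕ, (n / b) % b ^ (M + (k - 1)) = (n % b ^ (M + 1 + (k - 1))) / b := by
        intro n
        rw [show M + 1 + (k - 1) = (M + (k - 1)) + 1 by ring, pow_succ',
          Nat.mod_mul_right_div_self]
      rw [hh, hh, hn]
    rw [h1, ih _ _ h2]

lemma WG_per (hb : 2 ≤ b) (hk : 1 ≤ k) (hS : ∀ n, S n = w (n % b ^ k) * S (n / b)) (M Q n : ℕ)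
    (hQ : b ^ (M + (k - 1)) ∣ Q) : WG b S M (n + Q) = WG b S M n := by
  refine WG_cong hb hk hS M _ _ ?_
  obtain ⟨m, rfl⟩ := hQ
  exact Nat.add_mul_mod_self_left _ _ _

lemma S_window (hb : 2 ≤ b) (M n l : ℕ) (hl : n % b ^ M + l < b ^ M) :
    S (n + l) = WG b S M (n + l) * (WG b S M n)⁻¹ * S n := by
  have hB : 0 < b ^ M := by positivity
  have h1 : (n + l) / b ^ M = n / b ^ M := by
    have h3 : n + l = b ^ M * (n / b ^ M) + (n % b ^ M + l) := by
      rw [← add_assoc, Nat.div_add_mod]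
    conv_lhs => rw [h3]
    rw [Nat.mul_add_div hB, Nat.div_eq_of_lt hl, add_zero]
  unfold WG
  rw [h1]
  group

end one

/-- the number of `n ≤ N` close to a multiple of `R` from below -/
lemma close_count (R L N c : ℕ) (hR : 0 < R) :
    (((Ioc 0 N).filter (fun n => R < (n + c) % R + L)).card : ℝ) ≤ L * (N / R + 2) := by
  have h1 : ((Ioc 0 N).filter (fun n => R < (n + c) % R + L)).card ≤ L * (N / R + 2) := by
    -- injection `n ↦ ((n + c) / R - c / R, R - (n + c) % R)`
    have h2 : ((Ioc 0 N).filter (fun n => R < (n + c) % R + L)).card ≤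
        ((range (N / R + 2)) ×ˢ (Ioc 0 L)).card := by
      refine card_le_card_of_injOn (fun n => ((n + c) / R - c / R, R - (n + c) % R)) ?_ ?_
      · intro n hn
        simp only [coe_filter, Set.mem_ofPred_eq, mem_Ioc] at hn
        simp only [coe_product, Set.mem_prod, mem_coe, mem_range, mem_Ioc]
        have hm := Nat.mod_lt (n + c) hR
        refine ⟨?_, by omega, by omega⟩
        have h3 : (n + c) / R ≤ n / R + c / R + 1 := by
          have e1 := Nat.div_add_mod n R
          have e2 := Nat.div_add_mod c R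
          have e3 := Nat.mod_lt n hR
          have e4 := Nat.mod_lt c hR
          have : n + c < R * (n / R + c / R + 1 + 1) := by
            have : R * (n / R + c / R + 1 + 1) = R * (n / R) + R * (c / R) + R + R := by ring
            omega
          have := Nat.div_lt_of_lt_mul this
          omega
        have h4 : n / R ≤ N / R := Nat.div_le_div_right hn.1.2
        have h5 : 0 ≤ N / R := Nat.zero_le _
        omega
      · intro n hn n' hn' hnn
        simp only [coe_filter, Set.mem_ofPred_eq, mem_Ioc] at hn hn'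
        simp only [Prod.mk.injEq] at hnn
        have hm := Nat.mod_lt (n + c) hR
        have hm' := Nat.mod_lt (n' + c) hR
        have e1 := Nat.div_add_mod (n + c) R
        have e2 := Nat.div_add_mod (n' + c) R
        have h5 : c / R ≤ (n + c) / R := Nat.div_le_div_right (by omega)
        have h6 : c / R ≤ (n' + c) / R := Nat.div_le_div_right (by omega)
        have h7 : (n + c) / R = (n' + c) / R := by omega
        have h8 : (n + c) % R = (n' + c) % R := by omega
        rw [h7, h8] at e1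
        omega
    refine h2.trans (le_of_eq ?_)
    rw [card_product, card_range, Nat.card_Ioc, Nat.sub_zero, mul_comm]
  have h3 : ((L * (N / R + 2) : ℕ) : ℝ) ≤ L * (N / R + 2) := by
    push_cast
    have : ((N / R : ℕ) : ℝ) ≤ (N : ℝ) / R := Nat.cast_div_le
    gcongr
  exact le_trans (by exact_mod_cast h1) h3

variable {ι : Type} [Fintype ι] [DecidableEq ι]

/-- the estimate for functions of the values -/
def GP (G : ι → Type) (S : ∀ i, ℕ → G i) : Prop :=
  ∀ (Ψ : (∀ i, G i) → ℂ) (Q : ℕ), 0 < Q → ∀ ε : ℝ, 0 < ε → ∃ N₀ : ℕ, ∀ N, N₀ ≤ N →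
    ∀ (c : ι → ℕ) (θ : ℝ) (P : ℕ → ℂ), (∀ n, P (n + Q) = P n) → (∀ n, ‖P n‖ ≤ 1) →
      ‖∑ n ∈ Ioc 0 N, mob n * Ψ (fun i => S i (n + c i)) * P n * e (n * θ)‖ ≤ ε * N

theorem windows (G : ι → Type) [∀ i, Group (G i)] [∀ i, Fintype (G i)] [∀ i, DecidableEq (G i)]
    (b k : ι → ℕ) (S w : ∀ i, ℕ → G i) (hb : ∀ i, 2 ≤ b i) (hk : ∀ i, 1 ≤ k i)
    (hS : ∀ i n, S i n = w i (n % b i ^ k i) * S i (n / b i)) (hGP : GP G S)
    (L : ℕ) (H : (∀ i, Fin L → G i) → ℂ) (ε : ℝ) (hε : 0 < ε) :
    ∃ N₀ : ℕ, ∀ N, N₀ ≤ N → ∀ (c : ι → ℕ) (θ : ℝ),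
      ‖∑ n ∈ Ioc 0 N, mob n * H (fun i h => S i (n + c i + h)) * e (n * θ)‖ ≤ ε * N := by
  -- a bound for H
  obtain ⟨B, hB1, hB⟩ : ∃ B : ℝ, 1 ≤ B ∧ ∀ x, ‖H x‖ ≤ B :=
    ⟨1 + ∑ x, ‖H x‖, by
      have : 0 ≤ ∑ x, ‖H x‖ := sum_nonneg fun x _ => norm_nonneg _
      linarith, fun x => by
      have := single_le_sum (f := fun x => ‖H x‖) (fun x _ => norm_nonneg _) (mem_univ x)
      linarith⟩
  set s : ℝ := (Fintype.card ι : ℝ) with hs
  have hs0 : 0 ≤ s := Nat.cast_nonneg _
  set D : ℝ := 2 * B * (s * L) + 1 with hD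
  have hDpos : 0 < D := by positivity
  obtain ⟨M, hM⟩ := exists_nat_ge (4 * D / ε)
  have hbM : ∀ i, 4 * D / ε ≤ ((b i ^ M : ℕ) : ℝ) := by
    intro i
    refine hM.trans ?_
    have : M ≤ b i ^ M := (Nat.lt_pow_self (by have := hb i; omega)).le
    exact_mod_cast this
  set Q : ℕ := ∏ i, b i ^ (M + (k i - 1)) with hQ
  have hQpos : 0 < Q := prod_pos fun i _ => by have := hb i; positivity
  have hQd : ∀ i, b i ^ (M + (k i - 1)) ∣ Q := fun i => dvd_prod_of_mem _ (mem_univ i)
  set A : ℕ := Fintype.card (∀ i, Fin L → G i) with hA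
  have hA0 : (0 : ℝ) ≤ A := Nat.cast_nonneg _
  choose N₁ hN₁ using fun a : (∀ i, Fin L → G i) =>
    hGP (fun g => H (fun i h => a i h * g i)) Q hQpos (ε / (4 * (A + 1))) (by positivity)
  obtain ⟨N₂, hN₂⟩ := exists_nat_ge (8 * D / ε)
  refine ⟨max (∑ a, N₁ a) N₂, fun N hN c θ => ?_⟩
  have hN0 : (0 : ℝ) ≤ N := Nat.cast_nonneg _
  have hN2 : 8 * D ≤ ε * N := by
    rw [div_le_iff₀ hε] at hN₂
    have : (N₂ : ℝ) ≤ N := by exact_mod_cast (le_max_right _ _).trans hN
    nlinarith
  -- the local parts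
  set V : ℕ → ∀ i, Fin L → G i := fun n i h =>
    WG (b i) (S i) M (n + c i + h) * (WG (b i) (S i) M (n + c i))⁻¹ with hV
  have hVper : ∀ n, V (n + Q) = V n := by
    intro n
    funext i h
    rw [hV]
    simp only
    rw [show n + Q + c i + h = (n + c i + h) + Q by ring, show n + Q + c i = (n + c i) + Q by ring,
      WG_per (hb i) (hk i) (hS i) M Q _ (hQd i), WG_per (hb i) (hk i) (hS i) M Q _ (hQd i)]
  set main : ℕ → ℂ := fun n => H (fun i h => V n i h * S i (n + c i)) with hmain
  set bad : Finset ℕ := (Ioc 0 N).filter (fun n => ∃ i, b i ^ M < (n + c i) % b i ^ M + L)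
    with hbad
  have hgood : ∀ n ∈ Ioc 0 N, n ∉ bad → H (fun i h => S i (n + c i + h)) = main n := by
    intro n hn hnb
    rw [hbad, mem_filter] at hnb
    push Not at hnb
    have h1 := hnb hn
    rw [hmain]
    simp only
    congr 1
    funext i h
    rw [hV]
    refine S_window (hb i) M (n + c i) h ?_
    have := h1 i
    have := h.2
    omega
  have hbadcard : (bad.card : ℝ) ≤ s * (L * (N / (4 * D / ε) + 2)) := by
    have h1 : bad ⊆ univ.biUnion (fun i => (Ioc 0 N).filter
        (fun n => b i ^ M < (n + c i) % b i ^ M + L)) := by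
      intro n hn
      rw [hbad, mem_filter] at hn
      obtain ⟨h1, i, hi⟩ := hn
      rw [mem_biUnion]
      exact ⟨i, mem_univ i, mem_filter.2 ⟨h1, hi⟩⟩
    have h2 : (bad.card : ℝ) ≤ ∑ i, (((Ioc 0 N).filter
        (fun n => b i ^ M < (n + c i) % b i ^ M + L)).card : ℝ) := by
      exact_mod_cast (card_le_card h1).trans card_biUnion_le
    refine h2.trans ?_
    have h3 : ∀ i ∈ (univ : Finset ι), (((Ioc 0 N).filter
        (fun n => b i ^ M < (n + c i) % b i ^ M + L)).card : ℝ) ≤
        L * (N / (4 * D / ε) + 2) := by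
      intro i _
      refine (close_count (b i ^ M) L N (c i) (by have := hb i; positivity)).trans ?_
      have := hbM i
      have h4 : 0 < 4 * D / ε := by positivity
      gcongr
    refine (sum_le_card_nsmul _ _ _ h3).trans ?_
    rw [nsmul_eq_mul, hs, card_univ]
  have hbad2 : 2 * B * (bad.card : ℝ) ≤ ε / 2 * N := by
    have h1 : 2 * B * (bad.card : ℝ) ≤ D * (N / (4 * D / ε) + 2) := by
      have h2 : 0 ≤ (N : ℝ) / (4 * D / ε) + 2 := by positivity
      calc 2 * B * (bad.card : ℝ) ≤ 2 * B * (s * (L * (N / (4 * D / ε) + 2))) := by gcongr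
        _ = (2 * B * (s * L)) * (N / (4 * D / ε) + 2) := by ring
        _ ≤ D * (N / (4 * D / ε) + 2) := by
          rw [hD]
          nlinarith
    refine h1.trans ?_
    have h2 : D * (N / (4 * D / ε) + 2) = ε / 4 * N + 2 * D := by
      field_simp
    rw [h2]
    linarith
  -- the main part
  have hmainsum : ‖∑ n ∈ Ioc 0 N, mob n * main n * e (n * θ)‖ ≤ ε / 4 * N := by
    have h1 : ∀ n, main n = ∑ a, H (fun i h => a i h * S i (n + c i)) *
        (if V n = a then (1 : ℂ) else 0) := by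
      intro n
      simp only [mul_ite, mul_one, mul_zero]
      rw [Finset.sum_ite_eq, if_pos (mem_univ _)]
    have h2 : ∑ n ∈ Ioc 0 N, mob n * main n * e (n * θ) = ∑ a, ∑ n ∈ Ioc 0 N,
        mob n * H (fun i h => a i h * S i (n + c i)) * (if V n = a then (1 : ℂ) else 0) *
          e (n * θ) := by
      rw [sum_comm]
      refine sum_congr rfl fun n _ => ?_
      rw [h1, mul_sum, sum_mul]
      refine sum_congr rfl fun a _ => ?_
      ring
    rw [h2]
    refine (norm_sum_le _ _).trans ?_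
    have h3 : ∀ a ∈ (univ : Finset (∀ i, Fin L → G i)), ‖∑ n ∈ Ioc 0 N,
        mob n * H (fun i h => a i h * S i (n + c i)) * (if V n = a then (1 : ℂ) else 0) *
          e (n * θ)‖ ≤ ε / (4 * (A + 1)) * N := by
      intro a _
      refine hN₁ a N ?_ c θ (fun n => if V n = a then (1 : ℂ) else 0) (fun n => by
        simp only [hVper]) (fun n => by
        split_ifs
        · simp
        · simp)
      exact (single_le_sum (f := N₁) (fun _ _ => Nat.zero_le _) (mem_univ a)).trans
        ((le_max_left _ _).trans hN)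
    refine (sum_le_card_nsmul _ _ _ h3).trans ?_
    rw [nsmul_eq_mul, card_univ, ← hA]
    have h4 : (A : ℝ) * (ε / (4 * (A + 1)) * N) = (A / (A + 1)) * (ε / 4 * N) := by
      field_simp
    rw [h4]
    have h5 : (A : ℝ) / (A + 1) ≤ 1 := by
      rw [div_le_one (by positivity)]
      linarith
    have h6 : 0 ≤ ε / 4 * N := by positivity
    nlinarith
  have hdiff : ‖∑ n ∈ Ioc 0 N, mob n * H (fun i h => S i (n + c i + h)) * e (n * θ) -
      ∑ n ∈ Ioc 0 N, mob n * main n * e (n * θ)‖ ≤ 2 * B * (bad.card : ℝ) := by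
    rw [← sum_sub_distrib]
    have h1 : ∑ n ∈ Ioc 0 N, (mob n * H (fun i h => S i (n + c i + h)) * e (n * θ) -
        mob n * main n * e (n * θ)) = ∑ n ∈ bad,
        (mob n * H (fun i h => S i (n + c i + h)) * e (n * θ) - mob n * main n * e (n * θ)) := by
      symm
      refine sum_subset (filter_subset _ _) fun n hn hnb => ?_
      rw [hgood n hn hnb, sub_self]
    rw [h1]
    have h2 : ∀ n ∈ bad, ‖mob n * H (fun i h => S i (n + c i + h)) * e (n * θ) -
        mob n * main n * e (n * θ)‖ ≤ 2 * B := by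
      intro n _
      have hmu : ‖mob n‖ ≤ 1 := by
        unfold mob
        rw [Complex.norm_intCast]
        have := ArithmeticFunction.abs_moebius_le_one (n := n)
        exact_mod_cast this
      rw [show mob n * H (fun i h => S i (n + c i + h)) * e (n * θ) - mob n * main n * e (n * θ) =
        mob n * (H (fun i h => S i (n + c i + h)) - main n) * e (n * θ) by ring, norm_mul, norm_mul,
        norm_e, mul_one]
      have h3 : ‖H (fun i h => S i (n + c i + h)) - main n‖ ≤ 2 * B := by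
        refine (norm_sub_le _ _).trans ?_
        have := hB (fun i h => S i (n + c i + h))
        have h4 : ‖main n‖ ≤ B := hB _
        linarith
      calc ‖mob n‖ * ‖H (fun i h => S i (n + c i + h)) - main n‖ ≤ 1 * (2 * B) :=
            mul_le_mul hmu h3 (norm_nonneg _) zero_le_one
        _ = _ := one_mul _
    refine (norm_sum_le _ _).trans ?_
    refine (sum_le_card_nsmul _ _ _ h2).trans ?_
    rw [nsmul_eq_mul]
    linarith
  have h9 : ‖∑ n ∈ Ioc 0 N, mob n * H (fun i h => S i (n + c i + h)) * e (n * θ)‖ ≤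
      ‖∑ n ∈ Ioc 0 N, mob n * H (fun i h => S i (n + c i + h)) * e (n * θ) -
      ∑ n ∈ Ioc 0 N, mob n * main n * e (n * θ)‖ +
      ‖∑ n ∈ Ioc 0 N, mob n * main n * e (n * θ)‖ := by
    have := norm_add_le (∑ n ∈ Ioc 0 N, mob n * H (fun i h => S i (n + c i + h)) * e (n * θ) -
      ∑ n ∈ Ioc 0 N, mob n * main n * e (n * θ)) (∑ n ∈ Ioc 0 N, mob n * main n * e (n * θ))
    rwa [sub_add_cancel] at this
  have h10 : 0 ≤ ε * N := by positivity
  linarith

end Pool.Agent.U602.MS
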